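import Mathlib
import Pool.Agent.H561R2.VSpace

/-! Depth is at most a polynomial in variable space and the logarithm of the number of variables:
the proof.

Fix a configuration refutation `M 0, …, M t` in variable space `V`. A window `(i, j)` is a pair
of times with `M i` satisfied and `M j` falsified by the assignment. A window is narrowed by
querying the variables of a hitting set of few variable sets; the hitting set is chosen for the
canonical windows of all pairs of partial assignments. Each round halves the number of variable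
sets met strictly inside the window. -/

set_option autoImplicit false

namespace Pool.Agent.V7H96.VD

open Finset Pool.Agent.H561R2.VS

variable {n : ℕ}

/-- the variable sets met strictly between the times `i` and `j` -/
def fam (M : ℕ → Finset (Cl n)) (i j : ℕ) : Finset (Finset (Fin n)) :=
  (Finset.Ioo i j).image (fun l => vars (M l))

/-- the weight of a window, a lexicographic order written as one number -/
def wt (M : ℕ → Finset (Cl n)) (t i j : ℕ) : ℕ := (fam M i j).card * (t + 1) + (j - i)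

lemma fam_mono (M : ℕ → Finset (Cl n)) {i j i' j' : ℕ} (h1 : i ≤ i') (h2 : j' ≤ j) :
    fam M i' j' ⊆ fam M i j := by
  unfold fam
  apply Finset.image_subset_image
  intro l hl
  rw [Finset.mem_Ioo] at hl ⊢
  omega

lemma wt_lt_left (M : ℕ → Finset (Cl n)) {t i j l : ℕ} (h1 : i < l) (h2 : l < j) :
    wt M t l j < wt M t i j := by
  unfold wt
  have h := Finset.card_le_card (fam_mono M (i := i) (j := j) (i' := l) (j' := j) h1.le le_rfl)
  have h' := Nat.mul_le_mul_right (t + 1) h
  omega

lemma wt_lt_right (M : ℕ → Finset (Cl n)) {t i j l : ℕ} (h1 : i < l) (h2 : l < j) :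
    wt M t i l < wt M t i j := by
  unfold wt
  have h := Finset.card_le_card (fam_mono M (i := i) (j := j) (i' := i) (j' := l) le_rfl h2.le)
  have h' := Nat.mul_le_mul_right (t + 1) h
  omega

/-- the weight bounds the number of variable sets -/
lemma card_le_of_wt_le (M : ℕ → Finset (Cl n)) {t i j i' j' : ℕ} (hj : j ≤ t)
    (h : wt M t i' j' ≤ wt M t i j) : (fam M i' j').card ≤ (fam M i j).card := by
  unfold wt at h
  by_contra hcon
  push Not at hcon
  have h1 : ((fam M i j).card + 1) * (t + 1) ≤ (fam M i' j').card * (t + 1) :=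
    Nat.mul_le_mul_right _ hcon
  have h2 : ((fam M i j).card + 1) * (t + 1) = (fam M i j).card * (t + 1) + (t + 1) := by ring
  omega

lemma fcl_inj {U W : Finset (Fin n)} {α β : Fin n → Bool} (h : fcl U β = fcl W α) :
    U = W ∧ ∀ i ∈ U, β i = α i := by
  have h1 : U = W := by
    have h2 : (fcl U β).image Prod.fst = (fcl W α).image Prod.fst := by rw [h]
    have h3 : ∀ (Z : Finset (Fin n)) (γ : Fin n → Bool), (fcl Z γ).image Prod.fst = Z := by
      intro Z γ
      unfold fcl
      rw [Finset.image_image]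
      exact Finset.image_id
    rwa [h3, h3] at h2
  refine ⟨h1, ?_⟩
  intro i hi
  have h4 : (i, !β i) ∈ fcl W α := by
    rw [← h]
    unfold fcl
    exact Finset.mem_image_of_mem _ hi
  unfold fcl at h4
  obtain ⟨k, _, hk⟩ := Finset.mem_image.1 h4
  have hk1 : k = i := congrArg Prod.fst hk
  have hk2 : (!α k) = (!β i) := congrArg Prod.snd hk
  rw [hk1] at hk2
  cases h5 : α i <;> cases h6 : β i <;> simp_all

lemma fcl_card (U : Finset (Fin n)) (α : Fin n → Bool) : (fcl U α).card ≤ U.card := by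
  unfold fcl
  exact Finset.card_image_le

/-- a window that is compatible with the pair `π` of partial assignments -/
def Cmp (M : ℕ → Finset (Cl n)) (i j : ℕ) (π : Cl n × Cl n) (p : ℕ × ℕ) : Prop :=
  i ≤ p.1 ∧ p.1 < p.2 ∧ p.2 ≤ j ∧ ∃ α : Fin n → Bool, fcl (vars (M p.1)) α = π.1 ∧
    fcl (vars (M p.2)) α = π.2 ∧ Alive α (M p.1) ∧ ¬ Alive α (M p.2)

/-- a window whose ends are known to be alive and dead -/
def Known (M : ℕ → Finset (Cl n)) (i j : ℕ) (Q : Finset (Fin n)) (β : Fin n → Bool)
    (p : ℕ × ℕ) : Prop :=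
  i ≤ p.1 ∧ p.1 < p.2 ∧ p.2 ≤ j ∧ vars (M p.1) ⊆ Q ∧ vars (M p.2) ⊆ Q ∧
    Alive β (M p.1) ∧ ¬ Alive β (M p.2)

/-- a property that holds somewhere has a representative of least weight -/
lemma exists_min {ι : Type*} (P : ι → Prop) (w : ι → ℕ) (h : ∃ p, P p) :
    ∃ p, P p ∧ ∀ q, P q → w p ≤ w q := by
  classical
  have h2 : ∃ m, ∃ p, P p ∧ w p = m := by
    obtain ⟨p, hp⟩ := h
    exact ⟨w p, p, hp, rfl⟩
  obtain ⟨p, hp, hw⟩ := Nat.find_spec h2
  refine ⟨p, hp, ?_⟩
  intro q hq
  rw [hw]
  exact Nat.find_min' h2 ⟨q, hq, rfl⟩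

/-- the canonical windows and the hitting set of one round -/
lemma exists_round (M : ℕ → Finset (Cl n)) {t V K i j : ℕ} (hj : j ≤ t)
    (hV : ∀ l ≤ t, (vars (M l)).card ≤ V)
    (hK : ((Finset.univ : Finset (Cl n)).filter (fun C => C.card ≤ V)).card ^ 2 < 2 ^ K) :
    ∃ H : Finset (Finset (Fin n)), H ⊆ fam M i j ∧ H.card ≤ K ∧
      ∀ (Q : Finset (Fin n)) (β : Fin n → Bool), H.biUnion id ⊆ Q → i < j →
        vars (M i) ⊆ Q → vars (M j) ⊆ Q → Alive β (M i) → ¬ Alive β (M j) →
        ∃ p : ℕ × ℕ, Known M i j Q β p ∧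
          ((fam M p.1 p.2).card = 0 ∨ 2 * (fam M p.1 p.2).card < (fam M i j).card) := by
  classical
  -- canonical windows
  have hcan : ∀ π : Cl n × Cl n, ∃ p : ℕ × ℕ, (∃ q, Cmp M i j π q) →
      (Cmp M i j π p ∧ ∀ q, Cmp M i j π q → wt M t p.1 p.2 ≤ wt M t q.1 q.2) := by
    intro π
    by_cases h : ∃ q, Cmp M i j π q
    · obtain ⟨p, hp, hp2⟩ := exists_min (Cmp M i j π) (fun p => wt M t p.1 p.2) h
      exact ⟨p, fun _ => ⟨hp, hp2⟩⟩
    · exact ⟨(0, 0), fun h' => absurd h' h⟩
  choose c hc using hcan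
  set S : Finset (Cl n) := (Finset.univ : Finset (Cl n)).filter (fun C => C.card ≤ V) with hS
  set T : Finset (Cl n × Cl n) := (S ×ˢ S).filter (fun π =>
    fam M (c π).1 (c π).2 ⊆ fam M i j ∧ (fam M (c π).1 (c π).2).Nonempty ∧
      (fam M i j).card ≤ 2 * (fam M (c π).1 (c π).2).card) with hT
  have hTc : T.card < 2 ^ K := by
    refine lt_of_le_of_lt ?_ hK
    rw [hT]
    refine (Finset.card_filter_le _ _).trans ?_
    rw [Finset.card_product, sq]
  obtain ⟨H, hHA, hHc, hH⟩ := exists_hitting (fam M i j)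
    (fun π : Cl n × Cl n => fam M (c π).1 (c π).2) K T hTc
    (fun π hπ => (Finset.mem_filter.1 hπ).2)
  refine ⟨H, hHA, hHc, ?_⟩
  intro Q β hHQ hij hiQ hjQ hai haj
  obtain ⟨p, hp, hpmin⟩ := exists_min (Known M i j Q β) (fun p => wt M t p.1 p.2)
    ⟨(i, j), le_rfl, hij, le_rfl, hiQ, hjQ, hai, haj⟩
  obtain ⟨p1, p2, p3, p4, p5, p6, p7⟩ := hp
  set π : Cl n × Cl n := (fcl (vars (M p.1)) β, fcl (vars (M p.2)) β) with hπ
  have hpc : Cmp M i j π p := ⟨p1, p2, p3, β, rfl, rfl, p6, p7⟩
  obtain ⟨hcc, hcmin⟩ := hc π ⟨p, hpc⟩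
  obtain ⟨c1, c2, c3, γ, hγ1, hγ2, hγ3, hγ4⟩ := hcc
  obtain ⟨e1, e1'⟩ := fcl_inj hγ1
  obtain ⟨e2, e2'⟩ := fcl_inj hγ2
  have hk : Known M i j Q β (c π) := by
    refine ⟨c1, c2, c3, ?_, ?_, ?_, ?_⟩
    · rw [e1]; exact p4
    · rw [e2]; exact p5
    · exact (alive_congr (fun x hx => (e1' x hx).symm)).2 hγ3
    · intro h
      exact hγ4 ((alive_congr (fun x hx => (e2' x hx))).2 h)
  refine ⟨c π, hk, ?_⟩
  by_contra hcon
  push Not at hcon
  obtain ⟨hne, hdense⟩ := hcon
  have hπT : π ∈ T := by
    rw [hT, Finset.mem_filter]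
    refine ⟨?_, ?_, ?_, hdense⟩
    · rw [Finset.mem_product, hS, Finset.mem_filter, Finset.mem_filter]
      refine ⟨⟨Finset.mem_univ _, ?_⟩, Finset.mem_univ _, ?_⟩
      · exact (fcl_card _ _).trans (hV _ (by omega))
      · exact (fcl_card _ _).trans (hV _ (by omega))
    · exact fam_mono M c1 c3
    · exact Finset.card_pos.1 (Nat.pos_of_ne_zero hne)
  obtain ⟨h, hhH, hh⟩ := hH π hπT
  simp only [fam] at hh
  obtain ⟨l, hl, hl2⟩ := Finset.mem_image.1 hh
  rw [Finset.mem_Ioo] at hl
  obtain ⟨hl1, hl3⟩ := hl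
  have hlQ : vars (M l) ⊆ Q := by
    intro x hx
    apply hHQ
    rw [Finset.mem_biUnion]
    exact ⟨h, hhH, by rw [← hl2]; exact hx⟩
  have hle : wt M t (c π).1 (c π).2 ≤ wt M t p.1 p.2 := hcmin p hpc
  by_cases hal : Alive β (M l)
  · have h3 : Known M i j Q β (l, (c π).2) :=
      ⟨by simp only; omega, hl3, c3, hlQ, hk.2.2.2.2.1, hal, hk.2.2.2.2.2.2⟩
    have h4 := hpmin _ h3
    have h5 := wt_lt_left M (t := t) hl1 hl3
    simp only at h4
    omega
  · have h3 : Known M i j Q β ((c π).1, l) :=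
      ⟨c1, hl1, by simp only; omega, hk.2.2.2.1, hlQ, hk.2.2.2.2.2.1, hal⟩
    have h4 := hpmin _ h3
    have h5 := wt_lt_right M (t := t) hl1 hl3
    simp only at h4
    omega

/-- an empty window is an axiom download -/
lemma der_empty {F : Finset (Cl n)} (M : ℕ → Finset (Cl n)) {t i j : ℕ} (hj : j ≤ t)
    (hstep : ∀ l < t, Step F (M l) (M (l + 1))) (hij : i < j) (hfam : (fam M i j).card = 0)
    {Q : Finset (Fin n)} {α : Fin n → Bool} (hjQ : vars (M j) ⊆ Q)
    (hi : Alive α (M i)) (hja : ¬ Alive α (M j)) : Der F 0 (fcl Q α) := by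
  have h1 : j = i + 1 := by
    by_contra hne
    have h2 : vars (M (i + 1)) ∈ fam M i j := by
      unfold fam
      apply Finset.mem_image_of_mem (fun l => vars (M l))
      rw [Finset.mem_Ioo]
      omega
    rw [Finset.card_eq_zero] at hfam
    rw [hfam] at h2
    exact absurd h2 (Finset.notMem_empty _)
  subst h1
  obtain ⟨C, hC, hCM, hs⟩ := step_dead (hstep i (by omega)) hi hja
  exact der_leaf hC hs (fun l hl => hjQ (mem_vars hCM hl))

/-- the strategy: `r` rounds -/
theorem rounds {F : Finset (Cl n)} (M : ℕ → Finset (Cl n)) {t V K : ℕ}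
    (hstep : ∀ l < t, Step F (M l) (M (l + 1)))
    (hV : ∀ l ≤ t, (vars (M l)).card ≤ V)
    (hK : ((Finset.univ : Finset (Cl n)).filter (fun C => C.card ≤ V)).card ^ 2 < 2 ^ K) (r : ℕ) :
    ∀ (i j : ℕ) (Q : Finset (Fin n)) (α : Fin n → Bool), i < j → j ≤ t → vars (M i) ⊆ Q →
      vars (M j) ⊆ Q → Alive α (M i) → ¬ Alive α (M j) → (fam M i j).card < 2 ^ r →
      Der F (r * (K * V)) (fcl Q α) := by
  induction r with
  | zero =>
    intro i j Q α hij hj hiQ hjQ hi hja hc
    have := der_empty M hj hstep hij (by simpa using hc) hjQ hi hja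
    simpa using this
  | succ r ih =>
    intro i j Q α hij hj hiQ hjQ hi hja hc
    obtain ⟨H, hHA, hHc, hH⟩ := exists_round M (i := i) hj hV hK
    have hU : (H.biUnion id).card ≤ K * V := by
      refine (Finset.card_biUnion_le_card_mul H id V ?_).trans (Nat.mul_le_mul_right V hHc)
      intro h hh
      have := hHA hh
      unfold fam at this
      obtain ⟨l, hl, rfl⟩ := Finset.mem_image.1 this
      rw [Finset.mem_Ioo] at hl
      exact hV l (by omega)
    have key : Der F (r * (K * V) + (H.biUnion id).card) (fcl Q α) := by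
      apply der_queries
      intro β hβ
      have hbi : Alive β (M i) := (alive_congr (fun x hx => hβ x (hiQ hx))).2 hi
      have hbj : ¬ Alive β (M j) := fun h =>
        hja ((alive_congr (fun x hx => hβ x (hjQ hx))).1 h)
      obtain ⟨p, hp, hp2⟩ := hH (Q ∪ H.biUnion id) β Finset.subset_union_right hij
        (hiQ.trans Finset.subset_union_left) (hjQ.trans Finset.subset_union_left) hbi hbj
      obtain ⟨p1, p2, p3, p4, p5, p6, p7⟩ := hp
      apply ih p.1 p.2 _ β p2 (p3.trans hj) p4 p5 p6 p7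
      have hpos : 0 < 2 ^ r := Nat.two_pow_pos r
      rw [pow_succ] at hc
      rcases hp2 with h | h
      · omega
      · omega
    refine key.mono ?_
    have : (r + 1) * (K * V) = r * (K * V) + K * V := by ring
    omega

/-- the number of sets of size at most `V` -/
lemma card_small (α : Type*) [Fintype α] [DecidableEq α] (V : ℕ) :
    ((Finset.univ : Finset (Finset α)).filter (fun C => C.card ≤ V)).card ≤
      (Fintype.card α + 1) ^ V := by
  have h1 : (Finset.univ : Finset (Finset α)).filter (fun C => C.card ≤ V) ⊆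
      (Finset.range (V + 1)).biUnion (fun j => Finset.powersetCard j (Finset.univ : Finset α)) := by
    intro C hC
    rw [Finset.mem_filter] at hC
    rw [Finset.mem_biUnion]
    exact ⟨C.card, Finset.mem_range.2 (by omega), Finset.mem_powersetCard.2
      ⟨Finset.subset_univ _, rfl⟩⟩
  refine (Finset.card_le_card h1).trans (Finset.card_biUnion_le.trans ?_)
  rw [add_pow]
  apply Finset.sum_le_sum
  intro j hj
  rw [Finset.card_powersetCard, Finset.card_univ, one_pow, mul_one]
  have h2 : 1 ≤ V.choose j := Nat.choose_pos (by have := Finset.mem_range.1 hj; omega)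
  calc (Fintype.card α).choose j ≤ (Fintype.card α) ^ j := Nat.choose_le_pow _ _
    _ = (Fintype.card α) ^ j * 1 := (mul_one _).symm
    _ ≤ (Fintype.card α) ^ j * V.choose j := Nat.mul_le_mul_left _ h2

/-- depth at most `O(V³ log² n)`, from a refutation in variable space `V` -/
theorem depth_bound {F : Finset (Cl n)} (M : ℕ → Finset (Cl n)) {t V L : ℕ}
    (hn : n < 2 ^ L) (h0 : M 0 = ∅) (ht : ∅ ∈ M t)
    (hstep : ∀ l < t, Step F (M l) (M (l + 1)))
    (hV : ∀ l ≤ t, (vars (M l)).card ≤ V) :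
    (∅ : Cl n) ∈ lev F ((V * L + 1) * ((2 * V * (L + 1) + 1) * V) + V) := by
  classical
  have htpos : 0 < t := by
    rcases Nat.eq_zero_or_pos t with rfl | h
    · rw [h0] at ht
      exact absurd ht (Finset.notMem_empty _)
    · exact h
  have h2n : 2 * n + 1 < 2 ^ (L + 1) := by rw [pow_succ]; omega
  have hK : ((Finset.univ : Finset (Cl n)).filter (fun C => C.card ≤ V)).card ^ 2 <
      2 ^ (2 * V * (L + 1) + 1) := by
    have h1 := card_small (Fin n × Bool) V
    have h2 : Fintype.card (Fin n × Bool) + 1 = 2 * n + 1 := by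
      rw [Fintype.card_prod, Fintype.card_fin, Fintype.card_bool]; ring
    rw [h2] at h1
    calc ((Finset.univ : Finset (Cl n)).filter (fun C => C.card ≤ V)).card ^ 2
        ≤ ((2 * n + 1) ^ V) ^ 2 := Nat.pow_le_pow_left h1 2
      _ ≤ ((2 ^ (L + 1)) ^ V) ^ 2 :=
          Nat.pow_le_pow_left (Nat.pow_le_pow_left h2n.le V) 2
      _ = 2 ^ (2 * V * (L + 1)) := by
          rw [← pow_mul, ← pow_mul]; congr 1; ring
      _ < 2 ^ (2 * V * (L + 1) + 1) := Nat.pow_lt_pow_right (by norm_num) (by omega)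
  have hfam : (fam M 0 t).card < 2 ^ (V * L + 1) := by
    have h1 : fam M 0 t ⊆ (Finset.univ : Finset (Finset (Fin n))).filter (fun C => C.card ≤ V) := by
      intro U hU
      unfold fam at hU
      obtain ⟨l, hl, rfl⟩ := Finset.mem_image.1 hU
      rw [Finset.mem_Ioo] at hl
      exact Finset.mem_filter.2 ⟨Finset.mem_univ _, hV l (by omega)⟩
    have h2 := card_small (Fin n) V
    rw [Fintype.card_fin] at h2
    calc (fam M 0 t).card ≤ (n + 1) ^ V := (Finset.card_le_card h1).trans h2
      _ ≤ (2 ^ L) ^ V := Nat.pow_le_pow_left (by omega) V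
      _ = 2 ^ (V * L) := by rw [← pow_mul, mul_comm]
      _ < 2 ^ (V * L + 1) := Nat.pow_lt_pow_right (by norm_num) (by omega)
  have key : Der F ((V * L + 1) * ((2 * V * (L + 1) + 1) * V) + (vars (M t)).card)
      (fcl ∅ (fun _ => true)) := by
    apply der_queries
    intro β _
    apply rounds M hstep hV hK (V * L + 1) 0 t _ β htpos le_rfl
    · intro x hx
      rw [h0] at hx
      simp [vars] at hx
    · exact Finset.subset_union_right
    · intro C hC
      rw [h0] at hC
      exact absurd hC (Finset.notMem_empty _)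
    · intro h
      obtain ⟨l, hl, _⟩ := h ∅ ht
      exact absurd hl (Finset.notMem_empty _)
    · exact hfam
  have h3 := key.mono (Nat.add_le_add_left (hV t le_rfl) _)
  obtain ⟨C', hC', hsub⟩ := h3
  have : C' = ∅ := by
    apply Finset.subset_empty.1
    refine hsub.trans ?_
    simp [fcl]
  rw [← this]
  exact hC'

/-- depth at most the number of variables -/
theorem depth_trivial {F : Finset (Cl n)} (M : ℕ → Finset (Cl n)) {t : ℕ}
    (h0 : M 0 = ∅) (ht : ∅ ∈ M t)
    (hstep : ∀ l < t, Step F (M l) (M (l + 1))) :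
    (∅ : Cl n) ∈ lev F n := by
  classical
  have key : Der F (0 + (Finset.univ : Finset (Fin n)).card) (fcl ∅ (fun _ => true)) := by
    apply der_queries
    intro β _
    have hdead : ∃ i, ¬ Alive β (M i) := by
      refine ⟨t, fun h => ?_⟩
      obtain ⟨l, hl, _⟩ := h ∅ ht
      exact absurd hl (Finset.notMem_empty _)
    have hspec := Nat.find_spec hdead
    have hle : Nat.find hdead ≤ t := Nat.find_min' hdead (fun h => by
      obtain ⟨l, hl, _⟩ := h ∅ ht
      exact absurd hl (Finset.notMem_empty _))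
    have hne : Nat.find hdead ≠ 0 := by
      intro h
      apply hspec
      rw [h, h0]
      intro C hC
      exact absurd hC (Finset.notMem_empty _)
    obtain ⟨m, hm⟩ := Nat.exists_eq_succ_of_ne_zero hne
    have hal : Alive β (M m) := by
      by_contra h
      have := Nat.find_min' hdead h
      omega
    rw [hm] at hspec
    obtain ⟨C, hC, hCM, hs⟩ := step_dead (hstep m (by omega)) hal hspec
    exact der_leaf hC hs (fun l _ => by simp)
  obtain ⟨C', hC', hsub⟩ := key
  have : C' = ∅ := by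
    apply Finset.subset_empty.1
    refine hsub.trans ?_
    simp [fcl]
  rw [← this]
  simpa using hC'

end Pool.Agent.V7H96.VD
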