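import Pool.Agent.H305R2.MertensE

set_option autoImplicit false

/-!
# Products over primes for prime triplets and quadruples, and the theorem of Mertens
-/

namespace Pool.Agent.V7H96.HL

open Finset Filter Topology

/-- the product of `1 - 1 / p` over the primes `p ≤ z` -/
noncomputable def Dz (z : ℕ) : ℝ := ∏ p ∈ (Icc 1 z).filter Nat.Prime, (1 - 1 / (p : ℝ))

lemma Dz_lim : Tendsto (fun z : ℕ => Dz z * Real.log z) atTop
    (𝓝 (Real.exp (-Real.eulerMascheroniConstant))) := by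
  have h := (Pool.Agent.H305R2.mertens_three).inv₀ (Real.exp_pos _).ne'
  rw [← Real.exp_neg] at h
  refine h.congr fun z => ?_
  rw [inv_div, Finset.prod_inv_distrib, div_inv_eq_mul, mul_comm]
  unfold Dz
  simp only [one_div]

lemma log_floor_lim (r : ℕ) (hr : 0 < r) :
    Tendsto (fun n : ℕ => Real.log (⌊(n : ℝ) ^ (1 / (r : ℝ))⌋₊ : ℝ) / Real.log n) atTop
      (𝓝 (1 / (r : ℝ))) := by
  have hr0 : (0 : ℝ) < r := by exact_mod_cast hr
  have hpow : Tendsto (fun n : ℕ => (n : ℝ) ^ (1 / (r : ℝ))) atTop atTop :=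
    (tendsto_rpow_atTop (by positivity)).comp tendsto_natCast_atTop_atTop
  have hlog : Tendsto (fun n : ℕ => Real.log (n : ℝ)) atTop atTop :=
    Real.tendsto_log_atTop.comp tendsto_natCast_atTop_atTop
  have hlow : Tendsto (fun n : ℕ => 1 / (r : ℝ) - Real.log 2 / Real.log n) atTop (𝓝 (1 / (r : ℝ))) := by
    have h1 : Tendsto (fun n : ℕ => Real.log 2 / Real.log (n : ℝ)) atTop (𝓝 0) :=
      tendsto_const_nhds.div_atTop hlog
    simpa using h1.const_sub (1 / (r : ℝ))
  refine tendsto_of_tendsto_of_tendsto_of_le_of_le' hlow tendsto_const_nhds ?_ ?_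
  · filter_upwards [hpow.eventually_ge_atTop 2, eventually_ge_atTop 2] with n hn hn2
    have hnr : (2 : ℝ) ≤ n := by exact_mod_cast hn2
    have hl : 0 < Real.log n := Real.log_pos (by linarith)
    have h1 : (n : ℝ) ^ (1 / (r : ℝ)) / 2 ≤ (⌊(n : ℝ) ^ (1 / (r : ℝ))⌋₊ : ℝ) := by
      have := Nat.sub_one_lt_floor ((n : ℝ) ^ (1 / (r : ℝ)))
      linarith
    have h2 : Real.log ((n : ℝ) ^ (1 / (r : ℝ)) / 2) ≤
        Real.log (⌊(n : ℝ) ^ (1 / (r : ℝ))⌋₊ : ℝ) := Real.log_le_log (by positivity) h1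
    rw [Real.log_div (by positivity) (by norm_num), Real.log_rpow (by linarith)] at h2
    rw [le_div_iff₀ hl, sub_mul, div_mul_cancel₀ _ hl.ne']
    exact h2
  · filter_upwards [hpow.eventually_ge_atTop 2, eventually_ge_atTop 2] with n hn hn2
    have hnr : (2 : ℝ) ≤ n := by exact_mod_cast hn2
    have hl : 0 < Real.log n := Real.log_pos (by linarith)
    have h1 : (1 : ℝ) ≤ (⌊(n : ℝ) ^ (1 / (r : ℝ))⌋₊ : ℝ) := by
      exact_mod_cast Nat.le_floor (by push_cast; linarith)
    have h2 : Real.log (⌊(n : ℝ) ^ (1 / (r : ℝ))⌋₊ : ℝ) ≤ Real.log ((n : ℝ) ^ (1 / (r : ℝ))) :=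
      Real.log_le_log (by linarith) (Nat.floor_le (by positivity))
    rw [Real.log_rpow (by linarith)] at h2
    rw [div_le_iff₀ hl]
    exact h2

lemma DL_lim (r : ℕ) (hr : 0 < r) :
    Tendsto (fun n : ℕ => Dz ⌊(n : ℝ) ^ (1 / (r : ℝ))⌋₊ * Real.log n) atTop
      (𝓝 (Real.exp (-Real.eulerMascheroniConstant) * r)) := by
  have hr0 : (0 : ℝ) < r := by exact_mod_cast hr
  have hpow : Tendsto (fun n : ℕ => (n : ℝ) ^ (1 / (r : ℝ))) atTop atTop :=
    (tendsto_rpow_atTop (by positivity)).comp tendsto_natCast_atTop_atTop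
  have hfl : Tendsto (fun n : ℕ => ⌊(n : ℝ) ^ (1 / (r : ℝ))⌋₊) atTop atTop :=
    tendsto_nat_floor_atTop.comp hpow
  have h1 := Dz_lim.comp hfl
  have h2 := (log_floor_lim r hr).inv₀ (by positivity)
  have h3 := h1.mul h2
  rw [one_div, inv_inv] at h3
  refine h3.congr' ?_
  filter_upwards [hfl.eventually_ge_atTop 2] with n hn
  have hz : 0 < Real.log (⌊(n : ℝ) ^ (1 / (r : ℝ))⌋₊ : ℝ) :=
    Real.log_pos (by exact_mod_cast (by omega : 1 < ⌊(n : ℝ) ^ (1 / (r : ℝ))⌋₊))
  simp only [Function.comp_apply, one_div] at hz ⊢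
  rw [inv_div, mul_assoc, mul_div_assoc', mul_comm (Real.log _) (Real.log (n : ℝ)),
    mul_div_assoc, div_self hz.ne', mul_one]

/-! ### Convergence of the products -/

lemma prod_low (s : Finset ℕ) (f : ℕ → ℝ) (h0 : ∀ p ∈ s, 0 ≤ f p) (h1 : ∀ p ∈ s, f p ≤ 1) :
    1 - ∑ p ∈ s, f p ≤ ∏ p ∈ s, (1 - f p) := by
  classical
  induction s using Finset.induction_on with
  | empty => simp
  | insert a s ha ih =>
    rw [Finset.sum_insert ha, Finset.prod_insert ha]
    have h2 := ih (fun p hp => h0 p (Finset.mem_insert_of_mem hp))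
      (fun p hp => h1 p (Finset.mem_insert_of_mem hp))
    have h3 := h0 a (Finset.mem_insert_self a s)
    have h4 := h1 a (Finset.mem_insert_self a s)
    have h5 : 0 ≤ ∑ p ∈ s, f p :=
      Finset.sum_nonneg fun p hp => h0 p (Finset.mem_insert_of_mem hp)
    have h6 : (1 - f a) * (1 - ∑ p ∈ s, f p) ≤ (1 - f a) * ∏ p ∈ s, (1 - f p) :=
      mul_le_mul_of_nonneg_left h2 (by linarith)
    nlinarith [mul_nonneg h3 h5]

lemma sum_sq (N : ℕ) : ∑ n ∈ (Finset.range N).filter (fun n => 11 ≤ n), 1 / (n : ℝ) ^ 2 ≤ 1 / 10 := by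
  have key : ∀ N : ℕ, 11 ≤ N →
      ∑ n ∈ (Finset.range N).filter (fun n => 11 ≤ n), 1 / (n : ℝ) ^ 2 ≤ 1 / 10 - 1 / ((N : ℝ) - 1) := by
    intro N hN
    induction N, hN using Nat.le_induction with
    | base =>
      have : (Finset.range 11).filter (fun n => 11 ≤ n) = ∅ := by decide
      rw [this]
      norm_num
    | succ N hN ih =>
      have hNr : (11 : ℝ) ≤ N := by exact_mod_cast hN
      rw [Finset.range_add_one, Finset.filter_insert, if_pos hN, Finset.sum_insert (by simp)]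
      have h1 : 1 / (N : ℝ) ^ 2 ≤ 1 / ((N : ℝ) - 1) - 1 / (((N + 1 : ℕ) : ℝ) - 1) := by
        push_cast
        rw [add_sub_cancel_right, div_sub_div _ _ (by linarith) (by linarith),
          div_le_div_iff₀ (by positivity) (by nlinarith)]
        nlinarith
      linarith
  rcases Nat.lt_or_ge N 11 with h | h
  · have : (Finset.range N).filter (fun n => 11 ≤ n) = ∅ := by
      apply Finset.filter_eq_empty_iff.2
      intro n hn
      rw [Finset.mem_range] at hn
      omega
    rw [this]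
    norm_num
  · refine (key N h).trans ?_
    have : (11 : ℝ) ≤ N := by exact_mod_cast h
    have : 0 ≤ 1 / ((N : ℝ) - 1) := by
      apply div_nonneg <;> linarith
    linarith

/-- A product over the primes `3 < p < N` of factors `1 - a p` with `0 ≤ a p < 1` and
`a p ≤ 9 / p ^ 2` for `p ≥ 11` has a positive limit. -/
theorem prod_lim (F : ℕ → ℝ) (h0 : ∀ p : ℕ, 3 < p → 0 < F p) (h1 : ∀ p : ℕ, 3 < p → F p ≤ 1)
    (h2 : ∀ p : ℕ, 11 ≤ p → 1 - 9 / (p : ℝ) ^ 2 ≤ F p) :
    ∃ C : ℝ, 0 < C ∧ Tendsto (fun N : ℕ =>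
      ∏ p ∈ (Finset.range N).filter (fun p => p.Prime ∧ 3 < p), F p) atTop (𝓝 C) := by
  classical
  set P : ℕ → ℝ := fun N => ∏ p ∈ (Finset.range N).filter (fun p => p.Prime ∧ 3 < p), F p with hP
  have hanti : Antitone P := by
    apply antitone_nat_of_succ_le
    intro N
    simp only [hP]
    rw [Finset.range_add_one, Finset.filter_insert]
    split_ifs with h
    · rw [Finset.prod_insert (by simp)]
      have h3 : 0 ≤ ∏ p ∈ (Finset.range N).filter (fun p => p.Prime ∧ 3 < p), F p :=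
        Finset.prod_nonneg fun p hp => (h0 p (Finset.mem_filter.1 hp).2.2).le
      exact mul_le_of_le_one_left h3 (h1 N h.2)
    · exact le_rfl
  obtain ⟨c, hc⟩ : ∃ c : ℝ, c = ∏ p ∈ (Finset.range 11).filter (fun p => p.Prime ∧ 3 < p), F p := ⟨_, rfl⟩
  have hc0 : 0 < c := by
    rw [hc]
    exact Finset.prod_pos fun p hp => h0 p (Finset.mem_filter.1 hp).2.2
  have hlow : ∀ N : ℕ, 11 ≤ N → c / 10 ≤ P N := by
    intro N hN
    have hsplit : P N = c * ∏ p ∈ ((Finset.range N).filter (fun p => p.Prime ∧ 3 < p)).filter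
        (fun p => 11 ≤ p), F p := by
      simp only [hP]
      rw [← Finset.prod_filter_mul_prod_filter_not ((Finset.range N).filter
        (fun p => p.Prime ∧ 3 < p)) (fun p => 11 ≤ p), mul_comm]
      congr 1
      rw [hc]
      apply Finset.prod_congr _ fun _ _ => rfl
      ext p
      simp only [Finset.mem_filter, Finset.mem_range]
      constructor
      · rintro ⟨⟨h3, h4⟩, h5⟩
        exact ⟨by omega, h4⟩
      · rintro ⟨h3, h4⟩
        exact ⟨⟨by omega, h4⟩, by omega⟩
    have h3 : 1 / 10 ≤ ∏ p ∈ ((Finset.range N).filter (fun p => p.Prime ∧ 3 < p)).filter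
        (fun p => 11 ≤ p), F p := by
      have h4 := prod_low (((Finset.range N).filter (fun p => p.Prime ∧ 3 < p)).filter
        (fun p => 11 ≤ p)) (fun p => 9 / (p : ℝ) ^ 2) (fun p _ => by positivity) (fun p hp => by
          have hp11 : 11 ≤ p := (Finset.mem_filter.1 hp).2
          have hpr : (11 : ℝ) ≤ p := by exact_mod_cast hp11
          rw [div_le_one (by positivity)]
          nlinarith)
      have h5 : ∑ p ∈ ((Finset.range N).filter (fun p => p.Prime ∧ 3 < p)).filter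
          (fun p => 11 ≤ p), 9 / (p : ℝ) ^ 2 ≤ 9 / 10 := by
        have h6 : ∑ p ∈ ((Finset.range N).filter (fun p => p.Prime ∧ 3 < p)).filter
            (fun p => 11 ≤ p), 9 / (p : ℝ) ^ 2 ≤
            ∑ n ∈ (Finset.range N).filter (fun n => 11 ≤ n), 9 / (n : ℝ) ^ 2 := by
          apply Finset.sum_le_sum_of_subset_of_nonneg
          · intro p hp
            rw [Finset.mem_filter, Finset.mem_filter] at hp
            exact Finset.mem_filter.2 ⟨hp.1.1, hp.2⟩
          · intro p _ _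
            positivity
        have h7 : ∑ n ∈ (Finset.range N).filter (fun n => 11 ≤ n), 9 / (n : ℝ) ^ 2 =
            9 * ∑ n ∈ (Finset.range N).filter (fun n => 11 ≤ n), 1 / (n : ℝ) ^ 2 := by
          rw [Finset.mul_sum]
          exact Finset.sum_congr rfl fun n _ => by ring
        have h8 := sum_sq N
        linarith
      have h6 : ∏ p ∈ ((Finset.range N).filter (fun p => p.Prime ∧ 3 < p)).filter
          (fun p => 11 ≤ p), (1 - 9 / (p : ℝ) ^ 2) ≤
          ∏ p ∈ ((Finset.range N).filter (fun p => p.Prime ∧ 3 < p)).filter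
          (fun p => 11 ≤ p), F p := by
        apply Finset.prod_le_prod
        · intro p hp
          have hp11 : 11 ≤ p := (Finset.mem_filter.1 hp).2
          have hpr : (11 : ℝ) ≤ p := by exact_mod_cast hp11
          rw [sub_nonneg, div_le_one (by positivity)]
          nlinarith
        · intro p hp
          exact h2 p (Finset.mem_filter.1 hp).2
      linarith
    rw [hsplit]
    calc c / 10 = c * (1 / 10) := by ring
      _ ≤ _ := mul_le_mul_of_nonneg_left h3 hc0.le
  have hbdd : BddBelow (Set.range P) := by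
    refine ⟨0, ?_⟩
    rintro _ ⟨N, rfl⟩
    exact Finset.prod_nonneg fun p hp => (h0 p (Finset.mem_filter.1 hp).2.2).le
  have hlim := tendsto_atTop_ciInf hanti hbdd
  refine ⟨⨅ N, P N, ?_, hlim⟩
  refine lt_of_lt_of_le (by positivity : 0 < c / 10) ?_
  refine ge_of_tendsto hlim ?_
  filter_upwards [eventually_ge_atTop 11] with N hN
  exact hlow N hN

/-- the products of the quadruples -/
theorem lim4 : ∃ C : ℝ, 0 < C ∧ Tendsto (fun N : ℕ =>
    ∏ p ∈ (Finset.range N).filter (fun p => p.Prime ∧ 3 < p),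
      ((p : ℝ) ^ 3 * ((p : ℝ) - 4) / ((p : ℝ) - 1) ^ 4)) atTop (𝓝 C) := by
  have key : ∀ F : ℕ → ℝ, F = (fun p : ℕ => if 4 < p then
      (p : ℝ) ^ 3 * ((p : ℝ) - 4) / ((p : ℝ) - 1) ^ 4 else 1) →
      ∃ C : ℝ, 0 < C ∧ Tendsto (fun N : ℕ =>
      ∏ p ∈ (Finset.range N).filter (fun p => p.Prime ∧ 3 < p), F p) atTop (𝓝 C) := by
    intro F hF
    apply prod_lim F
    · intro p _
      rw [hF]
      simp only
      split_ifs with h4
      · have hp : (5 : ℝ) ≤ p := by exact_mod_cast h4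
        have h5 : (0 : ℝ) < (p : ℝ) - 4 := by linarith
        have h6 : (0 : ℝ) < (p : ℝ) - 1 := by linarith
        positivity
      · norm_num
    · intro p _
      rw [hF]
      simp only
      split_ifs with h4
      · have hp : (5 : ℝ) ≤ p := by exact_mod_cast h4
        have h6 : (0 : ℝ) < (p : ℝ) - 1 := by linarith
        rw [div_le_one (by positivity)]
        nlinarith [sq_nonneg ((p : ℝ) - 1)]
      · norm_num
    · intro p h11
      rw [hF]
      simp only
      rw [if_pos (by omega)]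
      have hp : (11 : ℝ) ≤ p := by exact_mod_cast h11
      have h6 : (0 : ℝ) < (p : ℝ) - 1 := by linarith
      have h7 : 1 - 9 / (p : ℝ) ^ 2 = ((p : ℝ) ^ 2 - 9) / (p : ℝ) ^ 2 := by
        field_simp
      rw [h7, div_le_div_iff₀ (by positivity) (by positivity)]
      obtain ⟨t, ht⟩ : ∃ t : ℝ, t = (p : ℝ) - 11 := ⟨_, rfl⟩
      have ht0 : 0 ≤ t := by linarith
      have hpt : (p : ℝ) = t + 11 := by linarith
      rw [hpt]
      have : 0 ≤ (t + 11) ^ 3 * (t + 11 - 4) * (t + 11) ^ 2 - ((t + 11) ^ 2 - 9) * (t + 11 - 1) ^ 4 := by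
        ring_nf
        positivity
      linarith
  obtain ⟨C, hC, hlim⟩ := key _ rfl
  refine ⟨C, hC, hlim.congr fun N => ?_⟩
  apply Finset.prod_congr rfl
  intro p hp
  obtain ⟨hpp, h3⟩ := (Finset.mem_filter.1 hp).2
  have h4 : 4 < p := by
    rcases Nat.lt_or_ge 4 p with h | h
    · exact h
    · exfalso
      have : p = 4 := by omega
      rw [this] at hpp
      exact absurd hpp (by norm_num)
  rw [if_pos h4]

/-- the products of the triplets -/
theorem lim3 : ∃ C : ℝ, 0 < C ∧ Tendsto (fun N : ℕ =>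
    ∏ p ∈ (Finset.range N).filter (fun p => p.Prime ∧ 3 < p),
      ((p : ℝ) ^ 2 * ((p : ℝ) - 3) / ((p : ℝ) - 1) ^ 3)) atTop (𝓝 C) := by
  apply prod_lim
  · intro p h4
    have hp : (4 : ℝ) ≤ p := by exact_mod_cast h4
    have h5 : (0 : ℝ) < (p : ℝ) - 3 := by linarith
    have h6 : (0 : ℝ) < (p : ℝ) - 1 := by linarith
    positivity
  · intro p h4
    have hp : (4 : ℝ) ≤ p := by exact_mod_cast h4
    have h6 : (0 : ℝ) < (p : ℝ) - 1 := by linarith
    rw [div_le_one (by positivity)]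
    nlinarith
  · intro p h11
    have hp : (11 : ℝ) ≤ p := by exact_mod_cast h11
    have h6 : (0 : ℝ) < (p : ℝ) - 1 := by linarith
    have h7 : 1 - 9 / (p : ℝ) ^ 2 = ((p : ℝ) ^ 2 - 9) / (p : ℝ) ^ 2 := by
      field_simp
    rw [h7, div_le_div_iff₀ (by positivity) (by positivity)]
    obtain ⟨t, ht⟩ : ∃ t : ℝ, t = (p : ℝ) - 11 := ⟨_, rfl⟩
    have ht0 : 0 ≤ t := by linarith
    have hpt : (p : ℝ) = t + 11 := by linarith
    rw [hpt]
    have : 0 ≤ (t + 11) ^ 2 * (t + 11 - 3) * (t + 11) ^ 2 - ((t + 11) ^ 2 - 9) * (t + 11 - 1) ^ 3 := by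
      ring_nf
      positivity
    linarith

end Pool.Agent.V7H96.HL
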