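import Pool.Agent.V7H96.HLConst

set_option autoImplicit false

/-!
# The densities of the semi-sifted triplets and quadruples
-/

namespace Pool.Agent.V7H96.HL

open Finset Filter Topology

/-- the product of `(1 - ν / p) / (1 - 1 / p)` over the primes `p ≤ z`, where `ν = 0` for `p ∣ 30`, and
`ν = k` otherwise -/
noncomputable def Wz (k z : ℕ) : ℝ :=
  ∏ p ∈ (Icc 1 z).filter Nat.Prime, (1 - ((if p ∣ 30 then 0 else k : ℕ) : ℝ) / p) / (1 - 1 / (p : ℝ))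

lemma prod_235 (c2 c3 c5 : ℝ) (z : ℕ) (hz : 5 ≤ z) :
    ∏ p ∈ (Icc 1 z).filter Nat.Prime,
      (if p = 2 then c2 else if p = 3 then c3 else if p = 5 then c5 else 1) = c2 * c3 * c5 := by
  have hsub : ({2, 3, 5} : Finset ℕ) ⊆ (Icc 1 z).filter Nat.Prime := by
    intro p hp
    simp only [mem_insert, mem_singleton] at hp
    rw [mem_filter, mem_Icc]
    rcases hp with rfl | rfl | rfl
    · exact ⟨⟨by omega, by omega⟩, by norm_num⟩
    · exact ⟨⟨by omega, by omega⟩, by norm_num⟩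
    · exact ⟨⟨by omega, by omega⟩, by norm_num⟩
  rw [← Finset.prod_subset hsub]
  · rw [Finset.prod_insert (by decide), Finset.prod_insert (by decide), Finset.prod_singleton]
    norm_num
    ring
  · intro p _ hp
    simp only [mem_insert, mem_singleton, not_or] at hp
    rw [if_neg hp.1, if_neg hp.2.1, if_neg hp.2.2]

lemma prod_big (F : ℕ → ℝ) (z : ℕ) :
    ∏ p ∈ (Icc 1 z).filter Nat.Prime, (if 3 < p then F p else 1) =
      ∏ p ∈ (Finset.range (z + 1)).filter (fun p => p.Prime ∧ 3 < p), F p := by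
  rw [← Finset.prod_filter]
  apply Finset.prod_congr _ fun _ _ => rfl
  ext p
  simp only [mem_filter, mem_Icc, mem_range]
  constructor
  · rintro ⟨⟨h1, h2⟩, h3⟩
    exact ⟨by omega, h2, h3⟩
  · rintro ⟨h1, h2, h3⟩
    exact ⟨⟨⟨by omega, by omega⟩, h2⟩, h3⟩

lemma Wz_gen (k : ℕ) (F : ℕ → ℝ) (c2 c3 c5 : ℝ) (z : ℕ) (hz : 5 ≤ z)
    (h : ∀ p : ℕ, p.Prime → (1 - ((if p ∣ 30 then 0 else k + 1 : ℕ) : ℝ) / p) / (1 - 1 / (p : ℝ)) =
      (if p = 2 then c2 else if p = 3 then c3 else if p = 5 then c5 else 1) *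
        (if 3 < p then F p else 1) * (1 - 1 / (p : ℝ)) ^ k) :
    Wz (k + 1) z = c2 * c3 * c5 *
      (∏ p ∈ (Finset.range (z + 1)).filter (fun p => p.Prime ∧ 3 < p), F p) * Dz z ^ k := by
  unfold Wz Dz
  rw [← prod_235 c2 c3 c5 z hz, ← prod_big F z, ← Finset.prod_pow, ← Finset.prod_mul_distrib,
    ← Finset.prod_mul_distrib]
  apply Finset.prod_congr rfl
  intro p hp
  exact h p (mem_filter.1 hp).2

lemma dvd30 {p : ℕ} (hp : p.Prime) (h2 : p ≠ 2) (h3 : p ≠ 3) (h5 : p ≠ 5) : ¬ p ∣ 30 := by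
  intro h
  have h6 : p ∣ 2 * (3 * 5) := h
  rcases (Nat.Prime.dvd_mul hp).1 h6 with h7 | h7
  · exact h2 ((Nat.prime_dvd_prime_iff_eq hp Nat.prime_two).1 h7)
  · rcases (Nat.Prime.dvd_mul hp).1 h7 with h8 | h8
    · exact h3 ((Nat.prime_dvd_prime_iff_eq hp Nat.prime_three).1 h8)
    · exact h5 ((Nat.prime_dvd_prime_iff_eq hp Nat.prime_five).1 h8)

lemma Wz4 (z : ℕ) (hz : 5 ≤ z) : Wz 4 z = 405 *
    (∏ p ∈ (Finset.range (z + 1)).filter (fun p => p.Prime ∧ 3 < p),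
      ((p : ℝ) ^ 3 * ((p : ℝ) - 4) / ((p : ℝ) - 1) ^ 4)) * Dz z ^ 3 := by
  rw [Wz_gen 3 (fun p => (p : ℝ) ^ 3 * ((p : ℝ) - 4) / ((p : ℝ) - 1) ^ 4) 16 (81 / 16) 5 z hz]
  · norm_num
  · intro p hp
    by_cases h2 : p = 2
    · subst h2
      norm_num
    by_cases h3 : p = 3
    · subst h3
      norm_num
    by_cases h5 : p = 5
    · subst h5
      norm_num
    have hlt : 3 < p := by
      have := hp.two_le
      omega
    rw [if_neg (dvd30 hp h2 h3 h5), if_neg h2, if_neg h3, if_neg h5, if_pos hlt, one_mul]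
    have hpr : (4 : ℝ) ≤ p := by exact_mod_cast hlt
    have h6 : (p : ℝ) - 1 ≠ 0 := by linarith
    have h7 : (p : ℝ) ≠ 0 := by linarith
    push_cast
    have h8 : 1 - 1 / (p : ℝ) = (p - 1) / p := by field_simp
    rw [h8]
    field_simp

lemma Wz3 (z : ℕ) (hz : 5 ≤ z) : Wz 3 z = 135 / 2 *
    (∏ p ∈ (Finset.range (z + 1)).filter (fun p => p.Prime ∧ 3 < p),
      ((p : ℝ) ^ 2 * ((p : ℝ) - 3) / ((p : ℝ) - 1) ^ 3)) * Dz z ^ 2 := by
  rw [Wz_gen 2 (fun p => (p : ℝ) ^ 2 * ((p : ℝ) - 3) / ((p : ℝ) - 1) ^ 3) 8 (27 / 8) (5 / 2) z hz]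
  · norm_num
  · intro p hp
    by_cases h2 : p = 2
    · subst h2
      norm_num
    by_cases h3 : p = 3
    · subst h3
      norm_num
    by_cases h5 : p = 5
    · subst h5
      norm_num
    have hlt : 3 < p := by
      have := hp.two_le
      omega
    rw [if_neg (dvd30 hp h2 h3 h5), if_neg h2, if_neg h3, if_neg h5, if_pos hlt, one_mul]
    have hpr : (4 : ℝ) ≤ p := by exact_mod_cast hlt
    have h6 : (p : ℝ) - 1 ≠ 0 := by linarith
    have h7 : (p : ℝ) ≠ 0 := by linarith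
    push_cast
    have h8 : 1 - 1 / (p : ℝ) = (p - 1) / p := by field_simp
    rw [h8]
    field_simp

lemma Wz_lim (k : ℕ) (K C : ℝ) (F : ℕ → ℝ)
    (hW : ∀ z : ℕ, 5 ≤ z → Wz (k + 1) z = K *
      (∏ p ∈ (Finset.range (z + 1)).filter (fun p => p.Prime ∧ 3 < p), F p) * Dz z ^ k)
    (hC : Tendsto (fun N : ℕ =>
      ∏ p ∈ (Finset.range N).filter (fun p => p.Prime ∧ 3 < p), F p) atTop (𝓝 C))
    (r : ℕ) (hr : 0 < r) :
    Tendsto (fun n : ℕ => Wz (k + 1) ⌊(n : ℝ) ^ (1 / (r : ℝ))⌋₊ * Real.log n ^ k) atTop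
      (𝓝 (K * C * (Real.exp (-Real.eulerMascheroniConstant) * r) ^ k)) := by
  have hr0 : (0 : ℝ) < r := by exact_mod_cast hr
  have hpow : Tendsto (fun n : ℕ => (n : ℝ) ^ (1 / (r : ℝ))) atTop atTop :=
    (tendsto_rpow_atTop (by positivity)).comp tendsto_natCast_atTop_atTop
  have hfl : Tendsto (fun n : ℕ => ⌊(n : ℝ) ^ (1 / (r : ℝ))⌋₊) atTop atTop :=
    tendsto_nat_floor_atTop.comp hpow
  have h1 := hC.comp ((tendsto_add_atTop_nat 1).comp hfl)
  have h2 := ((h1.const_mul K).mul ((DL_lim r hr).pow k))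
  refine h2.congr' ?_
  filter_upwards [hfl.eventually_ge_atTop 5] with n hn
  rw [hW _ hn]
  simp only [Function.comp_apply]
  ring

/-- from the count in terms of `Wz` to the count in terms of the limit -/
lemma assemble (k : ℕ) (L c ε : ℝ) (hL : 0 < L) (hc : 0 < c) (hε : 0 < ε) (hε1 : ε ≤ 1) (r : ℕ)
    (hlim : Tendsto (fun n : ℕ => Wz (k + 1) ⌊(n : ℝ) ^ (1 / (r : ℝ))⌋₊ * Real.log n ^ k) atTop (𝓝 L)) :
    ∀ᶠ n : ℕ in atTop, ∀ (P Y : ℝ), 0 ≤ Y →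
      |P * Real.log n - c * (Y / 30 * Wz (k + 1) ⌊(n : ℝ) ^ (1 / (r : ℝ))⌋₊)| ≤
        ε / 4 * (c * (Y / 30 * Wz (k + 1) ⌊(n : ℝ) ^ (1 / (r : ℝ))⌋₊)) →
      |P * Real.log n ^ (k + 1) - Y * (c / 30 * L)| ≤ ε * (Y * (c / 30 * L)) := by
  have h1 : ∀ᶠ n : ℕ in atTop,
      |Wz (k + 1) ⌊(n : ℝ) ^ (1 / (r : ℝ))⌋₊ * Real.log n ^ k - L| < ε / 4 * L := by
    have := (tendsto_order.1 (tendsto_iff_dist_tendsto_zero.1 hlim)).2 (ε / 4 * L) (by positivity)
    filter_upwards [this] with n hn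
    rwa [Real.dist_eq] at hn
  filter_upwards [h1, eventually_ge_atTop 2] with n h1 h2 P Y hY hP
  have hnr : (2 : ℝ) ≤ n := by exact_mod_cast h2
  have hl : 0 < Real.log n := Real.log_pos (by linarith)
  obtain ⟨W, hW⟩ : ∃ W : ℝ, W = Wz (k + 1) ⌊(n : ℝ) ^ (1 / (r : ℝ))⌋₊ := ⟨_, rfl⟩
  rw [← hW] at h1 hP
  obtain ⟨l, hlk⟩ : ∃ l : ℝ, l = Real.log n ^ k := ⟨_, rfl⟩
  have hl0 : 0 < l := by rw [hlk]; positivity
  rw [← hlk] at h1
  rw [pow_succ, ← hlk]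
  obtain ⟨a1, a2⟩ := abs_lt.1 h1
  obtain ⟨b1, b2⟩ := abs_le.1 hP
  have hYc : 0 ≤ Y * (c / 30) := by positivity
  -- multiply the second by `l`
  have d1 : P * (l * Real.log n) ≤ (1 + ε / 4) * (Y * (c / 30)) * (W * l) := by
    have : P * Real.log n ≤ (1 + ε / 4) * (Y * (c / 30)) * W := by linarith
    calc P * (l * Real.log n) = P * Real.log n * l := by ring
      _ ≤ (1 + ε / 4) * (Y * (c / 30)) * W * l := mul_le_mul_of_nonneg_right this hl0.le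
      _ = _ := by ring
  have d2 : (1 - ε / 4) * (Y * (c / 30)) * (W * l) ≤ P * (l * Real.log n) := by
    have : (1 - ε / 4) * (Y * (c / 30)) * W ≤ P * Real.log n := by linarith
    calc (1 - ε / 4) * (Y * (c / 30)) * (W * l) = (1 - ε / 4) * (Y * (c / 30)) * W * l := by ring
      _ ≤ P * Real.log n * l := mul_le_mul_of_nonneg_right this hl0.le
      _ = _ := by ring
  have e1 : (1 + ε / 4) * (Y * (c / 30)) * (W * l) ≤
      (1 + ε / 4) * (Y * (c / 30)) * ((1 + ε / 4) * L) :=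
    mul_le_mul_of_nonneg_left (by linarith) (by positivity)
  have e2 : (1 - ε / 4) * (Y * (c / 30)) * ((1 - ε / 4) * L) ≤
      (1 - ε / 4) * (Y * (c / 30)) * (W * l) :=
    mul_le_mul_of_nonneg_left (by linarith) (mul_nonneg (by linarith) hYc)
  have hM : 0 ≤ Y * (c / 30) * L := by positivity
  have f1 : (1 + ε / 4) * (Y * (c / 30)) * ((1 + ε / 4) * L) ≤ (1 + ε) * (Y * (c / 30) * L) := by
    have : (1 + ε / 4) * (1 + ε / 4) ≤ 1 + ε := by nlinarith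
    calc (1 + ε / 4) * (Y * (c / 30)) * ((1 + ε / 4) * L) =
        (1 + ε / 4) * (1 + ε / 4) * (Y * (c / 30) * L) := by ring
      _ ≤ _ := mul_le_mul_of_nonneg_right this hM
  have f2 : (1 - ε) * (Y * (c / 30) * L) ≤ (1 - ε / 4) * (Y * (c / 30)) * ((1 - ε / 4) * L) := by
    have : 1 - ε ≤ (1 - ε / 4) * (1 - ε / 4) := by nlinarith
    calc (1 - ε) * (Y * (c / 30) * L) ≤ (1 - ε / 4) * (1 - ε / 4) * (Y * (c / 30) * L) :=
        mul_le_mul_of_nonneg_right this hM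
      _ = _ := by ring
  rw [abs_le]
  constructor <;> linarith

end Pool.Agent.V7H96.HL
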