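import Pool.Agent.Y677.RSZ.FinInst

set_option autoImplicit false

/-!
# Narrow progressions of regular points in arbitrary sets and in colour classes

This file combines the two general theorems of the starting files, regular neighbourhoods
(`TH977.PW`) and narrow progressions (`Y677.RSZ`).
-/

namespace Pool.Agent.V7H96.NR

open Finset Filter
open Pool.Agent.TH977.PW (N N_mono Irregular)
open Pool.Agent.Y677.RSZ (InProg Outside)

/-- `m` is a term of an arithmetic progression of `l` terms in `(X, X + Y]` with difference at most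
`D` all of whose terms are regular points of `A` (with the parameters `k c δ B X Y`). -/
def Good (A : Set ℕ) (k l : ℕ) (D c δ : ℝ) (B X Y m : ℕ) : Prop :=
  ∃ u d : ℕ, 1 ≤ d ∧ (d : ℝ) ≤ D ∧ (∃ i < l, m = u + i * d) ∧
    ∀ i < l, X < u + i * d ∧ u + i * d ≤ X + Y ∧ u + i * d ∈ A ∧
      u + i * d ∉ Irregular A k c δ B X Y

/-- the elements of `A` which are not terms of such a progression -/
def Bad (A : Set ℕ) (k l : ℕ) (D c δ : ℝ) (B X Y : ℕ) : Set ℕ :=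
  {m | m ∈ A ∧ ¬ Good A k l D c δ B X Y m}

open Classical in
lemma N_union (A B C : Set ℕ) (a b : ℕ) (h : ∀ m, a < m → m ≤ b → m ∈ A → m ∈ B ∨ m ∈ C) :
    N A a b ≤ N B a b + N C a b := by
  unfold N
  refine (card_le_card ?_).trans (card_union_le _ _)
  intro m hm
  rw [mem_filter, mem_Ioc] at hm
  rw [mem_union, mem_filter, mem_filter, mem_Ioc]
  rcases h m hm.1.1 hm.1.2 hm.2 with h1 | h1
  · exact Or.inl ⟨hm.1, h1⟩
  · exact Or.inr ⟨hm.1, h1⟩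

open Classical in
lemma N_colour {K : ℕ} (A : Set ℕ) (χ : ℕ → Fin K) (a b : ℕ) :
    N A a b = ∑ j : Fin K, N {m | m ∈ A ∧ χ m = j} a b := by
  unfold N
  rw [Finset.card_eq_sum_card_fiberwise (f := χ) (t := Finset.univ) (fun _ _ => Finset.mem_coe.2 (Finset.mem_univ _))]
  refine Finset.sum_congr rfl fun j _ => ?_
  congr 1
  ext m
  simp only [mem_filter, mem_Ioc, Set.mem_setOf_eq]
  tauto

/-- **Both theorems together, arbitrary subsets.** -/
theorem comb (R : Set ℕ) (k : ℕ) (θ : ℝ)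
    (h1 : ∀ ε : ℝ, 0 < ε → ∃ c : ℝ, 0 < c ∧ ∀ δ : ℝ, 0 < δ → ∃ B : ℕ,
      ∀ᶠ X : ℕ in atTop, ∀ Y : ℕ, (X : ℝ) ^ θ ≤ Y → 2 * Y ≤ X → ∀ A : Set ℕ, A ⊆ R →
        (N (Irregular A k c δ B X Y) X (X + Y) : ℝ) ≤ ε * Y / Real.log X ^ k)
    (h2 : ∀ l : ℕ, 2 ≤ l → ∀ ε : ℝ, 0 < ε → ∃ B : ℕ, ∀ᶠ X : ℕ in atTop, ∀ Y : ℕ,
      (X : ℝ) ^ θ ≤ Y → Y ≤ X → ∀ A : Set ℕ, A ⊆ R →
        (N (Outside A l (Real.log X ^ B) X (X + Y)) X (X + Y) : ℝ) ≤ ε * Y / Real.log X ^ k)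
    (l : ℕ) (hl : 2 ≤ l) (ε : ℝ) (hε : 0 < ε) :
    ∃ c : ℝ, 0 < c ∧ ∃ D : ℕ, ∀ δ : ℝ, 0 < δ → ∃ B : ℕ, ∀ᶠ X : ℕ in atTop, ∀ Y : ℕ,
      (X : ℝ) ^ θ ≤ Y → 2 * Y ≤ X → ∀ A : Set ℕ, A ⊆ R →
        (N (Bad A k l (Real.log X ^ D) c δ B X Y) X (X + Y) : ℝ) ≤ ε * Y / Real.log X ^ k := by
  obtain ⟨c, hc, h1⟩ := h1 (ε / 2) (by linarith)
  obtain ⟨D, h2⟩ := h2 l hl (ε / 2) (by linarith)
  refine ⟨c, hc, D, fun δ hδ => ?_⟩
  obtain ⟨B, h1⟩ := h1 δ hδ
  refine ⟨B, ?_⟩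
  filter_upwards [h1, h2] with X hX1 hX2 Y hXY hYX A hA
  have e1 := hX1 Y hXY hYX A hA
  have e2 := hX2 Y hXY (by omega) {m | m ∈ A ∧ m ∉ Irregular A k c δ B X Y} (fun m hm => hA hm.1)
  have e3 : N (Bad A k l (Real.log X ^ D) c δ B X Y) X (X + Y) ≤
      N (Irregular A k c δ B X Y) X (X + Y) +
      N (Outside {m | m ∈ A ∧ m ∉ Irregular A k c δ B X Y} l (Real.log X ^ D) X (X + Y))
        X (X + Y) := by
    apply N_union
    intro m _ _ hm
    by_cases hI : m ∈ Irregular A k c δ B X Y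
    · exact Or.inl hI
    · refine Or.inr ⟨⟨hm.1, hI⟩, fun hP => hm.2 ?_⟩
      obtain ⟨u, d, hd, hdD, hall, hi⟩ := hP
      exact ⟨u, d, hd, hdD, hi, fun i hi => ⟨(hall i hi).2.1, (hall i hi).2.2, (hall i hi).1.1,
        (hall i hi).1.2⟩⟩
  have e4 : (N (Bad A k l (Real.log X ^ D) c δ B X Y) X (X + Y) : ℝ) ≤
      N (Irregular A k c δ B X Y) X (X + Y) +
      N (Outside {m | m ∈ A ∧ m ∉ Irregular A k c δ B X Y} l (Real.log X ^ D) X (X + Y))
        X (X + Y) := by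
    exact_mod_cast e3
  have e5 : ε / 2 * Y / Real.log X ^ k + ε / 2 * Y / Real.log X ^ k = ε * Y / Real.log X ^ k := by
    ring
  linarith

/-- **Colourings.** In every colouring with `K` colours, one colour class contains many terms of
narrow progressions of regular points of this class. -/
theorem colour (R Al : Set ℕ) (hAl : Al ⊆ R) (k : ℕ) (P : ℕ → ℕ → Prop) (κ : ℝ) (hκ : 0 < κ)
    (hlow : ∀ᶠ X : ℕ in atTop, ∀ Y : ℕ, P X Y → κ * Y / Real.log X ^ k ≤ N Al X (X + Y))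
    (l : ℕ) (D : ℕ) (c δ : ℝ) (B : ℕ) (K : ℕ) (hK : 0 < K) (ε : ℝ) (hε : ε ≤ κ / (2 * K))
    (hup : ∀ᶠ X : ℕ in atTop, ∀ Y : ℕ, P X Y → ∀ A : Set ℕ, A ⊆ R →
        (N (Bad A k l (Real.log X ^ D) c δ B X Y) X (X + Y) : ℝ) ≤ ε * Y / Real.log X ^ k) :
    ∀ᶠ X : ℕ in atTop, ∀ Y : ℕ, P X Y → ∀ χ : ℕ → Fin K, ∃ j : Fin K,
      κ / (2 * K) * Y / Real.log X ^ k ≤
        N {m | Good {n | n ∈ Al ∧ χ n = j} k l (Real.log X ^ D) c δ B X Y m} X (X + Y) := by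
  filter_upwards [hlow, hup, eventually_ge_atTop 3] with X h1 h2 hX3 Y hP χ
  have hlog : 0 < Real.log X := Real.log_pos (by exact_mod_cast (by omega : 1 < X))
  have hKr : (0 : ℝ) < K := by exact_mod_cast hK
  have e1 := h1 Y hP
  rw [N_colour Al χ] at e1
  push_cast at e1
  obtain ⟨j, -, hj⟩ : ∃ j ∈ (Finset.univ : Finset (Fin K)), κ / K * Y / Real.log X ^ k ≤
      (N {m | m ∈ Al ∧ χ m = j} X (X + Y) : ℝ) := by
    apply Finset.exists_le_of_sum_le ⟨⟨0, hK⟩, Finset.mem_univ _⟩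
    rw [Finset.sum_const, Finset.card_univ, Fintype.card_fin, nsmul_eq_mul]
    refine le_trans (le_of_eq ?_) e1
    field_simp
  refine ⟨j, ?_⟩
  have e2 := h2 Y hP {m | m ∈ Al ∧ χ m = j} (fun m hm => hAl hm.1)
  have e3 : N {m | m ∈ Al ∧ χ m = j} X (X + Y) ≤
      N {m | Good {n | n ∈ Al ∧ χ n = j} k l (Real.log X ^ D) c δ B X Y m} X (X + Y) +
      N (Bad {m | m ∈ Al ∧ χ m = j} k l (Real.log X ^ D) c δ B X Y) X (X + Y) := by
    apply N_union
    intro m _ _ hm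
    by_cases hG : Good {n | n ∈ Al ∧ χ n = j} k l (Real.log X ^ D) c δ B X Y m
    · exact Or.inl hG
    · exact Or.inr ⟨hm, hG⟩
  have e4 : (N {m | m ∈ Al ∧ χ m = j} X (X + Y) : ℝ) ≤
      N {m | Good {n | n ∈ Al ∧ χ n = j} k l (Real.log X ^ D) c δ B X Y m} X (X + Y) +
      N (Bad {m | m ∈ Al ∧ χ m = j} k l (Real.log X ^ D) c δ B X Y) X (X + Y) := by
    exact_mod_cast e3
  have hY : (0 : ℝ) ≤ Y / Real.log X ^ k := by positivity
  have e5 : ε * Y / Real.log X ^ k ≤ κ / (2 * K) * Y / Real.log X ^ k := by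
    rw [mul_div_assoc, mul_div_assoc]
    exact mul_le_mul_of_nonneg_right hε hY
  have e6 : κ / K * Y / Real.log X ^ k =
      κ / (2 * K) * Y / Real.log X ^ k + κ / (2 * K) * Y / Real.log X ^ k := by
    field_simp
    ring
  linarith

lemma half_bound (θ : ℝ) (hθ1 : θ < 1) :
    ∀ᶠ X : ℕ in atTop, ((2 * X : ℕ) : ℝ) ^ θ ≤ ((X / 2 : ℕ) : ℝ) := by
  have h1 : Tendsto (fun X : ℕ => ((2 * X : ℕ) : ℝ) ^ (1 - θ)) atTop atTop := by
    refine (tendsto_rpow_atTop (by linarith)).comp ?_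
    exact tendsto_natCast_atTop_atTop.comp (tendsto_id.const_mul_atTop' (by norm_num))
  filter_upwards [h1.eventually_ge_atTop 8, eventually_ge_atTop 4] with X hX h4
  have hX0 : (0 : ℝ) < ((2 * X : ℕ) : ℝ) := by
    exact_mod_cast (by omega : 0 < 2 * X)
  have e1 : ((2 * X : ℕ) : ℝ) ^ θ * ((2 * X : ℕ) : ℝ) ^ (1 - θ) = ((2 * X : ℕ) : ℝ) := by
    rw [← Real.rpow_add hX0]
    norm_num
  have e2 : (0 : ℝ) < ((2 * X : ℕ) : ℝ) ^ θ := Real.rpow_pos_of_pos hX0 _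
  have e3 : ((2 * X : ℕ) : ℝ) ≤ 8 * ((X / 2 : ℕ) : ℝ) := by
    exact_mod_cast (by omega : 2 * X ≤ 8 * (X / 2))
  nlinarith

/-- **Colourings, when the lower bound is known for the intervals `(X, 2 X]` only.** -/
theorem colour2 (R Al : Set ℕ) (hAl : Al ⊆ R) (k : ℕ) (θ : ℝ) (hθ1 : θ < 1) (κ : ℝ) (hκ : 0 < κ)
    (hlow : ∀ᶠ X : ℕ in atTop, κ * X / Real.log X ^ k ≤ N Al X (2 * X))
    (l : ℕ) (D : ℕ) (c δ : ℝ) (B : ℕ) (K : ℕ) (hK : 0 < K)
    (hup : ∀ᶠ X : ℕ in atTop, ∀ Y : ℕ, (X : ℝ) ^ θ ≤ Y → 2 * Y ≤ X → ∀ A : Set ℕ, A ⊆ R →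
        (N (Bad A k l (Real.log X ^ D) c δ B X Y) X (X + Y) : ℝ) ≤
          κ / 8 / (2 * K) * Y / Real.log X ^ k) :
    ∀ᶠ X : ℕ in atTop, ∀ χ : ℕ → Fin K, ∃ j : Fin K, ∃ X' : ℕ, X ≤ X' ∧ 2 * X' ≤ 3 * X ∧
      κ / (16 * 2 ^ k) / (2 * K) * X / Real.log X ^ k ≤
        N {m | Good {n | n ∈ Al ∧ χ n = j} k l (Real.log X' ^ D) c δ B X' (X / 2) m}
          X' (X' + X / 2) := by
  have hKr : (0 : ℝ) < K := by exact_mod_cast hK
  have h := colour R Al hAl k (fun X Y => (X : ℝ) ^ θ ≤ Y ∧ 2 * Y ≤ X ∧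
      κ / 4 * Y / Real.log X ^ k ≤ N Al X (X + Y)) (κ / 4) (by linarith)
    (Eventually.of_forall fun X Y hP => hP.2.2) l D c δ B K hK (κ / 8 / (2 * K))
    (by
      rw [div_le_div_iff_of_pos_right (by positivity)]
      linarith)
    (by
      filter_upwards [hup] with X hX Y hP A hA
      exact hX Y hP.1 hP.2.1 A hA)
  obtain ⟨X0, hX0⟩ := eventually_atTop.1 h
  have hlim : ∀ᶠ X : ℕ in atTop, 2 / κ ≤ (X : ℝ) / Real.log X ^ k := by
    have h1 := (Real.tendsto_pow_log_div_mul_add_atTop 1 0 k one_ne_zero).comp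
      tendsto_natCast_atTop_atTop
    filter_upwards [h1.eventually_lt_const (by positivity : (0 : ℝ) < κ / 2),
      eventually_ge_atTop 3] with X hX h3
    have hXr : (3 : ℝ) ≤ X := by exact_mod_cast h3
    have hlog : 0 < Real.log X := Real.log_pos (by linarith)
    have hL : 0 < Real.log X ^ k := by positivity
    simp only [Function.comp_apply, one_mul, add_zero] at hX
    rw [div_lt_iff₀ (by linarith)] at hX
    rw [div_le_div_iff₀ hκ hL]
    linarith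
  filter_upwards [hlow, half_bound θ hθ1, eventually_ge_atTop X0, eventually_ge_atTop 4,
    hlim] with X h1 h2 h3 h4 h5 χ
  have hXr : (4 : ℝ) ≤ X := by exact_mod_cast h4
  have hlog : 0 < Real.log X := Real.log_pos (by linarith)
  have hL : 0 < Real.log X ^ k := by positivity
  have e0 : 1 ≤ κ / 2 * X / Real.log X ^ k := by
    rw [div_le_iff₀ hκ] at h5
    have : κ / 2 * X / Real.log X ^ k = X / Real.log X ^ k * κ / 2 := by ring
    rw [this]
    linarith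
  have e1 : N Al X (2 * X) ≤ N Al X (X + X / 2) + N Al (X + X / 2) (X + X / 2 + X / 2) + 1 := by
    classical
    unfold N
    have hsub : (Finset.Ioc X (2 * X)).filter (fun m => m ∈ Al) ⊆
        ((Finset.Ioc X (X + X / 2)).filter (fun m => m ∈ Al) ∪
          (Finset.Ioc (X + X / 2) (X + X / 2 + X / 2)).filter (fun m => m ∈ Al)) ∪ {2 * X} := by
      intro m hm
      rw [mem_filter, mem_Ioc] at hm
      rw [mem_union, mem_union, mem_filter, mem_filter, mem_Ioc, mem_Ioc, mem_singleton]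
      obtain ⟨⟨a1, a2⟩, a3⟩ := hm
      rcases Nat.lt_or_ge (X + X / 2) m with h6 | h6
      · rcases Nat.lt_or_ge (X + X / 2 + X / 2) m with h7 | h7
        · exact Or.inr (by omega)
        · exact Or.inl (Or.inr ⟨⟨h6, h7⟩, a3⟩)
      · exact Or.inl (Or.inl ⟨⟨a1, h6⟩, a3⟩)
    refine (card_le_card hsub).trans ((card_union_le _ _).trans ?_)
    rw [card_singleton]
    exact Nat.add_le_add_right (card_union_le _ _) 1
  have e2 : (N Al X (2 * X) : ℝ) ≤ N Al X (X + X / 2) + N Al (X + X / 2) (X + X / 2 + X / 2) + 1 := by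
    exact_mod_cast e1
  have e3 : κ * X / Real.log X ^ k = κ / 2 * X / Real.log X ^ k + κ / 4 * X / Real.log X ^ k +
      κ / 4 * X / Real.log X ^ k := by ring
  obtain ⟨X', hX'1, hX'2, hX'3⟩ : ∃ X' : ℕ, X ≤ X' ∧ 2 * X' ≤ 3 * X ∧
      κ / 4 * X / Real.log X ^ k ≤ N Al X' (X' + X / 2) := by
    by_cases hc : κ / 4 * X / Real.log X ^ k ≤ N Al X (X + X / 2)
    · exact ⟨X, le_rfl, by omega, hc⟩
    · refine ⟨X + X / 2, by omega, by omega, ?_⟩
      push Not at hc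
      linarith
  have hX'r : (X : ℝ) ≤ X' := by exact_mod_cast hX'1
  have hlog' : Real.log X ≤ Real.log X' := Real.log_le_log (by linarith) hX'r
  have hY : ((X / 2 : ℕ) : ℝ) ≤ X := by exact_mod_cast Nat.div_le_self X 2
  have hY4 : (X : ℝ) / 4 ≤ ((X / 2 : ℕ) : ℝ) := by
    rw [div_le_iff₀ (by norm_num)]
    exact_mod_cast (by omega : X ≤ X / 2 * 4)
  have hθX : (X' : ℝ) ^ θ ≤ ((X / 2 : ℕ) : ℝ) := by
    rcases le_or_gt 0 θ with h0 | h0
    · refine le_trans (Real.rpow_le_rpow (by positivity) ?_ h0) h2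
      exact_mod_cast (by omega : X' ≤ 2 * X)
    · have a1 : (X' : ℝ) ^ θ ≤ 1 := Real.rpow_le_one_of_one_le_of_nonpos (by linarith) h0.le
      linarith
  have hPl : κ / 4 * ((X / 2 : ℕ) : ℝ) / Real.log X' ^ k ≤ N Al X' (X' + X / 2) := by
    refine le_trans ?_ hX'3
    have a1 : κ / 4 * ((X / 2 : ℕ) : ℝ) ≤ κ / 4 * X := mul_le_mul_of_nonneg_left hY (by linarith)
    have a2 : Real.log X ^ k ≤ Real.log X' ^ k := pow_le_pow_left₀ hlog.le hlog' k
    exact div_le_div₀ (by positivity) a1 hL a2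
  obtain ⟨j, hj⟩ := hX0 X' (h3.trans hX'1) (X / 2) ⟨hθX, by omega, hPl⟩ χ
  refine ⟨j, X', hX'1, hX'2, le_trans ?_ hj⟩
  have hlog2 : Real.log X' ≤ 2 * Real.log X := by
    have a1 : Real.log X' ≤ Real.log ((X : ℝ) ^ 2) := by
      apply Real.log_le_log (by linarith)
      have : (X' : ℝ) ≤ 2 * X := by exact_mod_cast (by omega : X' ≤ 2 * X)
      nlinarith
    rwa [Real.log_pow] at a1
  have hL2 : Real.log X' ^ k ≤ 2 ^ k * Real.log X ^ k := by
    rw [← mul_pow]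
    exact pow_le_pow_left₀ (hlog.le.trans hlog') hlog2 k
  have hL' : 0 < Real.log X' ^ k := pow_pos (hlog.trans_le hlog') k
  rw [div_le_div_iff₀ hL hL']
  calc κ / (16 * 2 ^ k) / (2 * K) * X * Real.log X' ^ k
      ≤ κ / (16 * 2 ^ k) / (2 * K) * X * (2 ^ k * Real.log X ^ k) :=
        mul_le_mul_of_nonneg_left hL2 (by positivity)
    _ = κ / 4 / (2 * K) * (X / 4) * Real.log X ^ k := by
        field_simp
        ring
    _ ≤ κ / 4 / (2 * K) * ((X / 2 : ℕ) : ℝ) * Real.log X ^ k := by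
        apply mul_le_mul_of_nonneg_right _ hL.le
        exact mul_le_mul_of_nonneg_left hY4 (by positivity)

end Pool.Agent.V7H96.NR
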