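import Pool.Agent.V7H96.NarrowReg

set_option autoImplicit false

/-!
# Narrow progressions of regular points in arbitrary sets of pairs `m² + 1`, `m² + 3`, and in every
# colouring of the almost prime pairs

`R r` is the set of the `m` for which all prime factors of `m² + 1` and `m² + 3` are larger than
`m ^ (1 / r)`; it contains all `m` for which both numbers are prime. `Al r` is the set of the `m` in
`R r` for which both numbers have at most `r` prime factors. Let `0 < θ ≤ 1`.

* In every short interval `(X, X + Y]`, `Y ≥ X ^ θ`, there are at least `κ Y / log ^ 2 X` elements of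
  `Al r`.
* Let `A` be an ARBITRARY subset of `R r`, for example the set of the `m` for which `m² + 1` and
  `m² + 3` are prime. For every `l`, all but `ε Y / log ^ 2 X` of the elements of `A` in `(X, X + Y]`
  are terms of an arithmetic progression of `l` elements of `A` with difference at most a fixed power
  of `log X`, ALL of whose terms are regular points of `A`: the elements of `A` in ALL intervals of
  length between `log ^ 2 X / c` and `Y` around them have the right order, and constant density up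
  to `δ` at all but `B` dyadic scales. The power of the logarithm does not depend on `δ`.
* In every colouring of `Al r` with `K` colours, also if the colouring depends on `X` and `Y`, there
  is a colour for which a positive proportion of the expected number of elements of `(X, X + Y]` are
  terms of such progressions, of `l` terms of this colour, all of them regular points of the colour
  class. For instance the colour of `m` can be the pair of the numbers of prime factors of `m² + 1`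
  and `m² + 3`.

`N`, `RightOrder`, `ConstantDensity`, `badScales` and `Irregular` are defined in
`Pool/Agent/TH977/PW/Hered.lean`, `Good` and `Bad` in `Pool/Agent/V7H96/NarrowReg.lean`.
-/

namespace Pool.Agent.Results.MP_2dba45_nt.NarrowRegularColouringsH96

open Polynomial Finset Filter
open Pool.Agent.TH977.PW (N Rough Few)
open Pool.Agent.V7H96.NR (Good Bad)
open Pool.Agent.TH464.PW (quad quad_eval quad_deg quad_lead quad_irr)

/-- All prime factors of `m² + 1` and `m² + 3` are larger than `m ^ (1 / r)`. -/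
def R (r : ℕ) : Set ℕ :=
  {m | ∀ p : ℕ, p.Prime → (p ∣ m ^ 2 + 1 ∨ p ∣ m ^ 2 + 3) → (m : ℝ) ^ (1 / (r : ℝ)) < (p : ℝ)}

/-- The `m` in `R r` for which `m² + 1` and `m² + 3` have at most `r` prime factors. -/
def Al (r : ℕ) : Set ℕ :=
  {m | m ∈ R r ∧ (m ^ 2 + 1).primeFactorsList.length ≤ r ∧
    (m ^ 2 + 3).primeFactorsList.length ≤ r}

/-- the two polynomials -/
noncomputable def f (i : Fin 2) : ℤ[X] := quad 1 0 (1 + 2 * (i.val : ℤ))

lemma f_eval (i : Fin 2) (m : ℕ) : (f i).eval (m : ℤ) = ((m ^ 2 + (1 + 2 * i.val) : ℕ) : ℤ) := by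
  unfold f
  rw [quad_eval]
  push_cast
  ring

lemma sys : Pool.Agent.W123.RU.Poly.Sys f where
  irr i := by
    refine quad_irr 1 0 _ one_ne_zero (fun p hp h => ?_) ?_
    · exact hp.one_lt.ne' (by exact_mod_cast Int.eq_one_of_dvd_one (by omega) h.1)
    · rintro ⟨x, hx⟩
      have h1 := mul_self_nonneg x
      have h2 : (0 : ℤ) ≤ (i.val : ℤ) := by omega
      nlinarith
  deg i := by
    unfold f
    rw [quad_deg _ _ _ one_ne_zero]
    norm_num
  lead i := by
    unfold f
    rw [quad_lead _ _ _ one_ne_zero]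
    norm_num
  inj i j h := by
    have h1 := congrArg (fun q : ℤ[X] => q.eval ((0 : ℕ) : ℤ)) h
    simp only [f_eval] at h1
    apply Fin.ext
    have h2 : 0 ^ 2 + (1 + 2 * i.val) = 0 ^ 2 + (1 + 2 * j.val) := by exact_mod_cast h1
    omega
  adm p hp := by
    by_cases h3 : p = 3
    · subst h3
      refine ⟨1, fun i hi => ?_⟩
      rw [f_eval, Int.natCast_dvd_natCast] at hi
      fin_cases i <;> revert hi <;> norm_num
    · refine ⟨0, fun i hi => ?_⟩
      rw [f_eval, Int.natCast_dvd_natCast] at hi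
      fin_cases i
      · have h1 : p ∣ 1 := by simpa using hi
        exact hp.one_lt.ne' (Nat.dvd_one.1 h1)
      · have h1 : p ∣ 3 := by simpa using hi
        exact h3 ((Nat.prime_dvd_prime_iff_eq hp Nat.prime_three).1 h1)

lemma rough_iff (r m : ℕ) : Rough f r m ↔ m ∈ R r := by
  unfold Rough R
  constructor
  · rintro h p hp (hd | hd)
    · refine h 0 p hp ?_
      rw [f_eval, Int.natCast_dvd_natCast]
      simpa using hd
    · refine h 1 p hp ?_
      rw [f_eval, Int.natCast_dvd_natCast]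
      simpa using hd
  · intro h i p hp hd
    rw [f_eval, Int.natCast_dvd_natCast] at hd
    refine h p hp ?_
    fin_cases i
    · exact Or.inl (by simpa using hd)
    · exact Or.inr (by simpa using hd)

lemma few_iff (r m : ℕ) : Few f r m ↔ (m ^ 2 + 1).primeFactorsList.length ≤ r ∧
    (m ^ 2 + 3).primeFactorsList.length ≤ r := by
  unfold Few
  constructor
  · intro h
    have h0 := h 0
    have h1 := h 1
    rw [f_eval, Int.natAbs_natCast] at h0 h1
    exact ⟨by simpa using h0, by simpa using h1⟩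
  · rintro ⟨h0, h1⟩ i
    rw [f_eval, Int.natAbs_natCast]
    fin_cases i
    · simpa using h0
    · simpa using h1

/-- **Narrow progressions of regular points at pairs `m² + 1`, `m² + 3`.** -/
theorem result (θ : ℝ) (hθ : 0 < θ) (hθ1 : θ ≤ 1) :
    ∃ r₀ : ℕ, 2 ≤ r₀ ∧ ∀ r : ℕ, r₀ ≤ r →
      (∀ m : ℕ, 0 < m → (m ^ 2 + 1).Prime → (m ^ 2 + 3).Prime → m ∈ R r) ∧
      (∃ κ : ℝ, 0 < κ ∧ ∀ᶠ X : ℕ in atTop, ∀ Y : ℕ, (X : ℝ) ^ θ ≤ Y → Y ≤ X →
        κ * Y / Real.log X ^ 2 ≤ N (Al r) X (X + Y)) ∧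
      (∀ l : ℕ, 2 ≤ l → ∀ ε : ℝ, 0 < ε → ∃ c : ℝ, 0 < c ∧ ∃ D : ℕ, ∀ δ : ℝ, 0 < δ → ∃ B : ℕ,
        ∀ᶠ X : ℕ in atTop, ∀ Y : ℕ, (X : ℝ) ^ θ ≤ Y → 2 * Y ≤ X → ∀ A : Set ℕ, A ⊆ R r →
          (N (Bad A 2 l (Real.log X ^ D) c δ B X Y) X (X + Y) : ℝ) ≤ ε * Y / Real.log X ^ 2) ∧
      (∀ l : ℕ, 2 ≤ l → ∀ K : ℕ, 0 < K → ∃ κ : ℝ, 0 < κ ∧ ∃ c : ℝ, 0 < c ∧ ∃ D : ℕ,
        ∀ δ : ℝ, 0 < δ → ∃ B : ℕ, ∀ᶠ X : ℕ in atTop, ∀ Y : ℕ, (X : ℝ) ^ θ ≤ Y → 2 * Y ≤ X →
          ∀ χ : ℕ → Fin K, ∃ j : Fin K, κ * Y / Real.log X ^ 2 ≤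
            N {m | Good {n | n ∈ Al r ∧ χ n = j} 2 l (Real.log X ^ D) c δ B X Y m}
              X (X + Y)) := by
  obtain ⟨r1, hr1, h1⟩ := Pool.Agent.TH977.PW.final f sys (fun r => R r) (fun r => Al r) 2
    (by rw [Fintype.card_fin]) (fun r m _ hm => (rough_iff r m).2 hm)
    (fun r m _ h1 h2 => ⟨(rough_iff r m).1 h1, (few_iff r m).1 h2⟩) θ hθ hθ1
  obtain ⟨r2, hr2, h2⟩ := Pool.Agent.Y677.RSZ.narrow_final f sys (fun r => R r) (fun r => Al r) 2
    (by rw [Fintype.card_fin]) (fun r m _ hm => (rough_iff r m).2 hm)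
    (fun r m _ h1 h2 => ⟨(rough_iff r m).1 h1, (few_iff r m).1 h2⟩) θ hθ hθ1
  refine ⟨max r1 r2, hr1.trans (le_max_left _ _), fun r hr => ?_⟩
  obtain ⟨hlow, hreg⟩ := h1 r ((le_max_left _ _).trans hr)
  obtain ⟨-, hnar⟩ := h2 r ((le_max_right _ _).trans hr)
  have hcomb := Pool.Agent.V7H96.NR.comb (R r) 2 θ hreg hnar
  refine ⟨?_, hlow, hcomb, ?_⟩
  · intro m hm hp1 hp3 q hq hdv
    have h2r : 2 ≤ r := hr1.trans ((le_max_left _ _).trans hr)
    rcases Nat.lt_or_ge m 2 with hlt | hge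
    · have hm1 : m = 1 := by omega
      subst hm1
      rw [Nat.cast_one, Real.one_rpow]
      exact_mod_cast hq.one_lt
    · rcases hdv with hdv | hdv
      · rw [(Nat.prime_dvd_prime_iff_eq hq hp1).1 hdv]
        exact Pool.Agent.TH977.PW.rpow_lt_of_le r m (m ^ 2 + 1) h2r hge (by nlinarith)
      · rw [(Nat.prime_dvd_prime_iff_eq hq hp3).1 hdv]
        exact Pool.Agent.TH977.PW.rpow_lt_of_le r m (m ^ 2 + 3) h2r hge (by nlinarith)
  · intro l hl K hK
    obtain ⟨κ, hκ, hlow⟩ := hlow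
    have hKr : (0 : ℝ) < K := by exact_mod_cast hK
    obtain ⟨c, hc0, D, hD⟩ := hcomb l hl (κ / (2 * K)) (by positivity)
    refine ⟨κ / (2 * K), by positivity, c, hc0, D, fun δ hδ => ?_⟩
    obtain ⟨B, hB⟩ := hD δ hδ
    refine ⟨B, ?_⟩
    have h := Pool.Agent.V7H96.NR.colour (R r) (Al r) (fun m hm => hm.1) 2
      (fun X Y => (X : ℝ) ^ θ ≤ Y ∧ 2 * Y ≤ X) κ hκ
      (by
        filter_upwards [hlow] with X hX Y hP
        exact hX Y hP.1 (by have := hP.2; omega))
      l D c δ B K hK (κ / (2 * K)) le_rfl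
      (by
        filter_upwards [hB] with X hX Y hP A hA
        exact hX Y hP.1 hP.2 A hA)
    filter_upwards [h] with X hX Y h1 h2 χ
    exact hX Y ⟨h1, h2⟩ χ

end Pool.Agent.Results.MP_2dba45_nt.NarrowRegularColouringsH96
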