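import Pool.Agent.Y816.PD.Inst2

set_option autoImplicit false

/-!
# The pair of polynomials `X² + 1`, `X² + 3`
-/

namespace Pool.Agent.V7H96.P13

open Polynomial Finset Filter
open Pool.Agent.TH977.PW (Rough Few)
open Pool.Agent.TH464.PW (quad quad_eval quad_deg quad_lead quad_irr)

/-- All prime factors of `m² + 1` and `m² + 3` are larger than `m ^ (1 / r)`. -/
def R (r : ℕ) : Set ℕ :=
  {m | ∀ p : ℕ, p.Prime → (p ∣ m ^ 2 + 1 ∨ p ∣ m ^ 2 + 3) → (m : ℝ) ^ (1 / (r : ℝ)) < (p : ℝ)}

/-- The `m` in `R r` for which `m² + 1` and `m² + 3` have at most `r` prime factors. -/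
def Al (r : ℕ) : Set ℕ :=
  {m | m ∈ R r ∧ (m ^ 2 + 1).primeFactorsList.length ≤ r ∧
    (m ^ 2 + 3).primeFactorsList.length ≤ r}

/-- the two polynomials -/
noncomputable def f (i : Fin 2) : ℤ[X] := quad 1 0 (1 + 2 * (i.val : ℤ))

lemma f_eval (i : Fin 2) (m : ℕ) : (f i).eval (m : ℤ) = ((m ^ 2 + (1 + 2 * i.val) : ℕ) : ℤ) := by
  unfold f
  rw [quad_eval]
  push_cast
  ring

lemma sys : Pool.Agent.W123.RU.Poly.Sys f where
  irr i := by
    refine quad_irr 1 0 _ one_ne_zero (fun p hp h => ?_) ?_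
    · exact hp.one_lt.ne' (by exact_mod_cast Int.eq_one_of_dvd_one (by omega) h.1)
    · rintro ⟨x, hx⟩
      have h1 := mul_self_nonneg x
      have h2 : (0 : ℤ) ≤ (i.val : ℤ) := by omega
      nlinarith
  deg i := by
    unfold f
    rw [quad_deg _ _ _ one_ne_zero]
    norm_num
  lead i := by
    unfold f
    rw [quad_lead _ _ _ one_ne_zero]
    norm_num
  inj i j h := by
    have h1 := congrArg (fun q : ℤ[X] => q.eval ((0 : ℕ) : ℤ)) h
    simp only [f_eval] at h1
    apply Fin.ext
    have h2 : 0 ^ 2 + (1 + 2 * i.val) = 0 ^ 2 + (1 + 2 * j.val) := by exact_mod_cast h1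
    omega
  adm p hp := by
    by_cases h3 : p = 3
    · subst h3
      refine ⟨1, fun i hi => ?_⟩
      rw [f_eval, Int.natCast_dvd_natCast] at hi
      fin_cases i <;> revert hi <;> norm_num
    · refine ⟨0, fun i hi => ?_⟩
      rw [f_eval, Int.natCast_dvd_natCast] at hi
      fin_cases i
      · have h1 : p ∣ 1 := by simpa using hi
        exact hp.one_lt.ne' (Nat.dvd_one.1 h1)
      · have h1 : p ∣ 3 := by simpa using hi
        exact h3 ((Nat.prime_dvd_prime_iff_eq hp Nat.prime_three).1 h1)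

lemma rough_iff (r m : ℕ) : Rough f r m ↔ m ∈ R r := by
  unfold Rough R
  constructor
  · rintro h p hp (hd | hd)
    · refine h 0 p hp ?_
      rw [f_eval, Int.natCast_dvd_natCast]
      simpa using hd
    · refine h 1 p hp ?_
      rw [f_eval, Int.natCast_dvd_natCast]
      simpa using hd
  · intro h i p hp hd
    rw [f_eval, Int.natCast_dvd_natCast] at hd
    refine h p hp ?_
    fin_cases i
    · exact Or.inl (by simpa using hd)
    · exact Or.inr (by simpa using hd)

lemma few_iff (r m : ℕ) : Few f r m ↔ (m ^ 2 + 1).primeFactorsList.length ≤ r ∧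
    (m ^ 2 + 3).primeFactorsList.length ≤ r := by
  unfold Few
  constructor
  · intro h
    have h0 := h 0
    have h1 := h 1
    rw [f_eval, Int.natAbs_natCast] at h0 h1
    exact ⟨by simpa using h0, by simpa using h1⟩
  · rintro ⟨h0, h1⟩ i
    rw [f_eval, Int.natAbs_natCast]
    fin_cases i
    · simpa using h0
    · simpa using h1

end Pool.Agent.V7H96.P13
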