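import Pool.Agent.Y816.PD.UniJ

set_option autoImplicit false

/-!
# Almost prime tuples with restricted digits in all intervals `(B, B + L)`, `B ≤ L ^ E`
-/

namespace Pool.Agent.V7H96.RD

open Finset Filter
open Pool.Agent.Y816.PD (NA IC)

open Classical in
/-- The number of the `m` with `B < m < B + L` whose `i`-th digit in base `b` belongs to `A i` for all
`i < K`, for which all `m + h`, `h ∈ H`, are below `B + L`, have at most `r` prime factors, and all
their prime factors `p` satisfy `p ^ r > b ^ K`. -/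
noncomputable def Almost (H : Finset ℕ) (b K r : ℕ) (A : ℕ → Finset ℕ) (B L : ℕ) : ℕ :=
  ((Ioo B (B + L)).filter (fun m => (∀ i < K, m / b ^ i % b ∈ A i) ∧ ∀ h ∈ H, m + h < B + L ∧
    (∀ p : ℕ, p.Prime → p ∣ m + h → b ^ K < p ^ r) ∧ (m + h).primeFactorsList.length ≤ r)).card

open Classical in
/-- The number of the `m` with `B < m < B + L` whose `i`-th digit in base `b` belongs to `A i` for all
`i < K`, for which all `m + h`, `h ∈ H`, are primes. -/
noncomputable def Primes (H : Finset ℕ) (b K : ℕ) (A : ℕ → Finset ℕ) (B L : ℕ) : ℕ :=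
  ((Ioo B (B + L)).filter (fun m => (∀ i < K, m / b ^ i % b ∈ A i) ∧ ∀ h ∈ H, (m + h).Prime)).card

/-- the number of choices of the digits -/
noncomputable def choices (K : ℕ) (A : ℕ → Finset ℕ) : ℝ := ∏ i ∈ range K, ((A i).card : ℝ)

/-- **Almost prime tuples with restricted digits in all short intervals.** -/
theorem main (H : Finset ℕ) (hadm : ∀ p : ℕ, p.Prime → ∃ m : ℕ, ∀ h ∈ H, ¬ p ∣ m + h) (k : ℕ)
    (hk : H.card = k) (hk1 : 1 ≤ k) (E : ℕ) :
    ∃ c : ℝ, 0 < c ∧ ∃ r₀ : ℕ, 2 ≤ r₀ ∧ ∀ r : ℕ, r₀ ≤ r → ∀ b : ℕ, 2 ≤ b →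
      ∃ κ C : ℝ, 0 < κ ∧ 0 < C ∧ ∀ᶠ L : ℕ in atTop, ∀ B : ℕ, B ≤ L ^ E →
        ∀ K : ℕ, K = Nat.log b (L / 3) → ∀ A : ℕ → Finset ℕ, (∀ i < K, A i ⊆ range b) →
          (b : ℝ) ^ K ≤ Real.exp (c * K) * choices K A →
          ((∃ d ∈ A 0, ∀ h ∈ H, (d + h).Coprime b) →
            κ * choices K A / (K : ℝ) ^ k ≤ Almost H b K r A B L) ∧
          (Primes H b K A B L : ℝ) ≤ C * choices K A / (K : ℝ) ^ k := by
  classical
  obtain ⟨c, hc, r0, hr0, h⟩ := Pool.Agent.Y816.PD.uni_int H hadm k hk hk1 (4 * E)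
  refine ⟨c, hc, r0, hr0, fun r hr b hb => ?_⟩
  obtain ⟨κ, C, hκ, hC, h1⟩ := h r hr b hb (3 * b)
  refine ⟨κ, C, hκ, hC, ?_⟩
  obtain ⟨K0, hK0⟩ := eventually_atTop.1 h1
  filter_upwards [eventually_ge_atTop (3 * b ^ (K0 + 1))] with L hL B hB K hK A hA hprod
  obtain ⟨hKK, hb1, hb2⟩ := Pool.Agent.Y816.PD.log_three hb (K0 + 1) hL hK
  have hb0 : 0 < b := by omega
  have e1 : L ≤ b ^ (4 * K) := by
    calc L ≤ 3 * b * b ^ K := hb2
      _ ≤ b ^ 2 * b * b ^ K := by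
          apply Nat.mul_le_mul_right
          apply Nat.mul_le_mul_right
          nlinarith
      _ = b ^ (K + 3) := by ring
      _ ≤ b ^ (4 * K) := Nat.pow_le_pow_right hb0 (by omega)
  have hx : B ≤ b ^ (4 * E * K) := by
    calc B ≤ L ^ E := hB
      _ ≤ (b ^ (4 * K)) ^ E := Nat.pow_le_pow_left e1 E
      _ = b ^ (4 * E * K) := by rw [← pow_mul]; congr 1; ring
  obtain ⟨h2, h3⟩ := hK0 K (by omega) B L hb1 hb2 hx A hA hprod
  refine ⟨fun hd => (h2 hd).trans (Nat.cast_le.2 ?_), le_trans (Nat.cast_le.2 ?_) h3⟩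
  · unfold IC Almost
    apply card_le_card
    intro m hm
    simp only [Finset.mem_filter, Set.mem_ofPred_eq] at hm ⊢
    exact hm
  · unfold IC Primes
    apply card_le_card
    intro m hm
    simp only [Finset.mem_filter, Set.mem_ofPred_eq] at hm ⊢
    exact hm

end Pool.Agent.V7H96.RD
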