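import Pool.Agent.V7H96.RPol
import Pool.Agent.V7H96.Pair13

set_option autoImplicit false

/-!
# Restricted digits in all short intervals: interface with plain sets
-/

namespace Pool.Agent.V7H96.RP

open Polynomial Finset Filter
open Pool.Agent.W123.RU.Poly
open Pool.Agent.Y816.PD (IC NA IC_mono log_three)

variable {ι : Type} [Fintype ι]

open Classical in
/-- The number of the `m` of `S` with `B < m < B + L` whose `i`-th digit in base `b` belongs to `A i` for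
all `i < K`. -/
noncomputable def Cnt (b K : ℕ) (A : ℕ → Finset ℕ) (B L : ℕ) (S : Set ℕ) : ℕ :=
  ((Ioo B (B + L)).filter (fun m => (∀ i < K, m / b ^ i % b ∈ A i) ∧ m ∈ S)).card

lemma Cnt_eq (b K : ℕ) (A : ℕ → Finset ℕ) (B L : ℕ) (S : Set ℕ) : Cnt b K A B L S = IC b K A B (B + L) S := by
  classical
  unfold Cnt IC
  congr

/-- the number of choices of the digits -/
noncomputable def choices (K : ℕ) (A : ℕ → Finset ℕ) : ℝ := ∏ i ∈ range K, ((A i).card : ℝ)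

theorem final (f : ι → ℤ[X]) (hf : Sys f) (k : ℕ) (hk : Fintype.card ι = k) (e : ℕ)
    (hgr : ∀ (m : ℕ) (i : ι), ((f i).eval (m : ℤ)).natAbs ≤ (m + 2) ^ e)
    (Al Bo : ℕ → ℕ → Set ℕ)
    (hAl : ∀ z r m : ℕ, (∀ i, (∀ p : ℕ, p.Prime → (p : ℤ) ∣ (f i).eval (m : ℤ) → z < p ^ r) ∧
      ((f i).eval (m : ℤ)).natAbs.primeFactorsList.length ≤ r) → m ∈ Al z r)
    (hBo : ∀ z r m : ℕ, m ∈ Bo z r → ∀ i, ∀ p : ℕ, p.Prime → (p : ℤ) ∣ (f i).eval (m : ℤ) →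
      z < p ^ r ∨ m ≤ p)
    (Lo : ℕ → ℕ → Prop) (hLo : ∀ b d : ℕ, Lo b d → ∀ i, ((f i).eval (d : ℤ)).natAbs.Coprime b)
    (E : ℕ) :
    ∃ c : ℝ, 0 < c ∧ ∃ r₀ : ℕ, 2 ≤ r₀ ∧ ∀ r : ℕ, r₀ ≤ r → ∀ b : ℕ, 2 ≤ b →
      ∃ κ C : ℝ, 0 < κ ∧ 0 < C ∧ ∀ᶠ L : ℕ in atTop, ∀ B : ℕ, B ≤ L ^ E →
        ∀ K : ℕ, K = Nat.log b (L / 3) → ∀ A : ℕ → Finset ℕ, (∀ i < K, A i ⊆ range b) →
          (b : ℝ) ^ K ≤ Real.exp (c * K) * choices K A →
          ((∃ d ∈ A 0, Lo b d) → κ * choices K A / (K : ℝ) ^ k ≤ Cnt b K A B L (Al (b ^ K) r)) ∧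
          (Cnt b K A B L (Bo (b ^ K) r) : ℝ) ≤ C * choices K A / (K : ℝ) ^ k := by
  classical
  obtain ⟨c, hc, r0, hr0, h⟩ := int f hf k hk e hgr (4 * E)
  refine ⟨c, hc, r0, hr0, fun r hr b hb => ?_⟩
  obtain ⟨κ, C, hκ, hC, h1⟩ := h r hr b hb (3 * b)
  refine ⟨κ, C, hκ, hC, ?_⟩
  obtain ⟨K0, hK0⟩ := eventually_atTop.1 h1
  filter_upwards [eventually_ge_atTop (3 * b ^ (K0 + 1))] with L hL B hB K hK A hA hprod
  obtain ⟨hKK, hb1, hb2⟩ := log_three hb (K0 + 1) hL hK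
  have hb0 : 0 < b := by omega
  have e1 : L ≤ b ^ (4 * K) := by
    calc L ≤ 3 * b * b ^ K := hb2
      _ ≤ b ^ 2 * b * b ^ K := by
          apply Nat.mul_le_mul_right
          apply Nat.mul_le_mul_right
          nlinarith
      _ = b ^ (K + 3) := by ring
      _ ≤ b ^ (4 * K) := Nat.pow_le_pow_right hb0 (by omega)
  have hx : B ≤ b ^ (4 * E * K) := by
    calc B ≤ L ^ E := hB
      _ ≤ (b ^ (4 * K)) ^ E := Nat.pow_le_pow_left e1 E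
      _ = b ^ (4 * E * K) := by rw [← pow_mul]; congr 1; ring
  obtain ⟨h2, h3⟩ := hK0 K (by omega) B L hb1 hb2 hx A hA hprod
  refine ⟨?_, le_trans (Nat.cast_le.2 ?_) h3⟩
  · rintro ⟨d, hd, hl⟩
    refine (h2 ⟨d, hd, hLo b d hl⟩).trans (Nat.cast_le.2 ?_)
    rw [Cnt_eq]
    exact IC_mono le_rfl le_rfl fun m _ _ hm => hAl _ _ m hm
  · rw [Cnt_eq]
    exact IC_mono le_rfl le_rfl fun m _ _ hm => hBo _ _ m hm

end Pool.Agent.V7H96.RP
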