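import Pool.Agent.Y816.PD.UniJ

set_option autoImplicit false

/-!
# Almost prime values of a system of polynomials at integers with restricted digits, all short intervals
-/

namespace Pool.Agent.V7H96.RP

open Polynomial Finset Filter
open Pool.Agent.H373R2.T7 Pool.Agent.W123.RP Pool.Agent.W123.RU.Poly Pool.Agent.W182.PW
open Pool.Agent.Y816.PD

variable {ι : Type} [Fintype ι]

/-- the product of the values at `N + j` -/
def TF (f : ι → ℤ[X]) (N j : ℕ) : ℤ := ∏ i, (f i).eval ((N + j : ℕ) : ℤ)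

lemma TF_dvd (f : ι → ℤ[X]) (N j : ℕ) {p : ℕ} (hp : p.Prime) :
    (p : ℤ) ∣ TF f N j ↔ Q f p (N + j) := by
  unfold TF Q
  rw [Prime.dvd_finsetProd_iff (Nat.prime_iff_prime_int.1 hp)]
  simp

omit [Fintype ι] in
lemma Q_mod (f : ι → ℤ[X]) (p n : ℕ) : Q f p n ↔ Q f p (n % p) := by
  unfold Q
  apply exists_congr
  intro i
  have h1 : (p : ℤ) ∣ (n : ℤ) - ((n % p : ℕ) : ℤ) := mod_dvd p n
  have h2 : (p : ℤ) ∣ (f i).eval (n : ℤ) - (f i).eval ((n % p : ℕ) : ℤ) :=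
    h1.trans (sub_dvd_eval_sub _ _ _)
  exact (dvd_iff_dvd_of_dvd_sub h2)

open Classical in
lemma WG_TF (f : ι → ℤ[X]) (N x : ℕ) : WG (TF f N) x = Vq (Q f) x := by
  unfold WG Vq pz
  apply prod_congr rfl
  intro p hp
  rw [mem_filter] at hp
  have hpp := hp.2
  have h1 : ((range p).filter (fun n : ℕ => (p : ℤ) ∣ TF f N n)).card =
      ((range p).filter (fun n : ℕ => Q f p (N + n))).card := by
    congr 1
    apply filter_congr
    intro n _
    exact TF_dvd f N n hpp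
  have h2 : ((range p).filter (fun n : ℕ => Q f p (N + n))).card =
      ((range p).filter (fun n : ℕ => Q f p n)).card := by
    convert shift_eq p N hpp.pos (fun n => Q f p n) (fun n => Q_mod f p n)
  have h3 : nuB (Q f) p = ((range p).filter (fun n : ℕ => Q f p n)).card := by
    unfold nuB
    congr 1
  rw [h3, ← h2, ← h1]

lemma WG_bounds' (f : ι → ℤ[X]) (hf : Sys f) (k : ℕ) (hk : Fintype.card ι = k) (b : ℕ) (hb : 2 ≤ b) :
    ∃ v Cv : ℝ, 0 < v ∧ 0 < Cv ∧ ∀ᶠ K : ℕ in atTop, ∀ N : ℕ,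
      v / (K : ℝ) ^ k ≤ WG (TF f N) (b ^ K) ∧ WG (TF f N) (b ^ K) ≤ Cv / (K : ℝ) ^ k := by
  obtain ⟨v, Cv, hv, hCv, h⟩ := V_bounds f hf
  have hb1 : (1 : ℝ) < b := by exact_mod_cast (by omega : 1 < b)
  have hlb : 0 < Real.log b := Real.log_pos hb1
  refine ⟨v / Real.log b ^ k, Cv / Real.log b ^ k, by positivity, by positivity, ?_⟩
  filter_upwards [eventually_ge_atTop 2] with K hK N
  have hK0 : (0 : ℝ) < K := by exact_mod_cast (by omega : 0 < K)
  have h3 : 3 ≤ b ^ K := by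
    calc 3 ≤ 2 ^ 2 := by norm_num
      _ ≤ 2 ^ K := Nat.pow_le_pow_right (by norm_num) hK
      _ ≤ b ^ K := Nat.pow_le_pow_left hb K
  obtain ⟨h4, h5⟩ := h (b ^ K) h3
  rw [WG_TF]
  rw [hk] at h4 h5
  push_cast at h4 h5
  rw [Real.log_pow] at h4 h5
  have e : ∀ u : ℝ, u / Real.log b ^ k / (K : ℝ) ^ k = u / ((K : ℝ) * Real.log b) ^ k := by
    intro u
    rw [mul_pow]
    field_simp
  rw [e, e]
  exact ⟨h4, h5⟩

/-- **Almost prime values near any base point.** -/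
theorem shift (f : ι → ℤ[X]) (hf : Sys f) (k : ℕ) (hk : Fintype.card ι = k) (e : ℕ)
    (hgr : ∀ (m : ℕ) (i : ι), ((f i).eval (m : ℤ)).natAbs ≤ (m + 2) ^ e) (D : ℕ) :
    ∃ c : ℝ, 0 < c ∧ ∃ r0 : ℕ, 2 ≤ r0 ∧ ∀ r : ℕ, r0 ≤ r → ∀ b : ℕ, 2 ≤ b → ∃ κ C : ℝ, 0 < κ ∧ 0 < C ∧
      ∀ᶠ K : ℕ in atTop, ∀ N : ℕ, N ≤ b ^ (D * K) → ∀ A : ℕ → Finset ℕ, (∀ i < K, A i ⊆ range b) →
        (b : ℝ) ^ K ≤ Real.exp (c * K) * NA K A →
        ((∃ d ∈ A 0, ∀ i, ((f i).eval ((N + d : ℕ) : ℤ)).natAbs.Coprime b) →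
          κ * NA K A / (K : ℝ) ^ k ≤
          ND b K A {j | ∀ i, (∀ p : ℕ, p.Prime → (p : ℤ) ∣ (f i).eval ((N + j : ℕ) : ℤ) → b ^ K < p ^ r) ∧
            ((f i).eval ((N + j : ℕ) : ℤ)).natAbs.primeFactorsList.length ≤ r}) ∧
        (ND b K A {j | ∀ i, ∀ p : ℕ, p.Prime → (p : ℤ) ∣ (f i).eval ((N + j : ℕ) : ℤ) → j < p ^ r} : ℝ) ≤
          C * NA K A / (K : ℝ) ^ k := by
  classical
  set κ0 : ℕ := 1 + ∑ i, (f i).natDegree with hκ0
  obtain ⟨c, hc, r0, hr0, h⟩ := uni_fun κ0 ((D + 3) * e * k) (by omega)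
  refine ⟨c, hc, r0, hr0, fun r hr b hb => ?_⟩
  obtain ⟨κ, C, hκ, hC, h1⟩ := h r hr b hb
  obtain ⟨v, Cv, hv, hCv, hW⟩ := WG_bounds' f hf k hk b hb
  refine ⟨κ * v, C * Cv, by positivity, by positivity, ?_⟩
  filter_upwards [h1, hW, eventually_ge_atTop (r + 2)] with K hK hWK hK2 N hN A hA hprod
  have hNA := NA_nonneg K A
  have hbK : K < b ^ K := Nat.lt_pow_self (by omega)
  have hpoly : ∃ P : ℤ[X], P.natDegree ≤ κ0 ∧ ∀ j : ℕ, P.eval (j : ℤ) = TF f N j := by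
    refine ⟨∏ i, (f i).comp (X + Polynomial.C (N : ℤ)), ?_, fun j => ?_⟩
    · refine (natDegree_prod_le _ _).trans ?_
      have : ∑ i, ((f i).comp (X + Polynomial.C (N : ℤ))).natDegree ≤ ∑ i, (f i).natDegree := by
        apply Finset.sum_le_sum
        intro i _
        refine natDegree_comp_le.trans ?_
        rw [natDegree_X_add_C, mul_one]
      omega
    · unfold TF
      rw [eval_prod]
      apply Finset.prod_congr rfl
      intro i _
      rw [eval_comp]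
      simp only [eval_add, eval_X, eval_C]
      congr 1
      push_cast
      ring
  have hadm' : ∀ p : ℕ, p.Prime → ∃ j : ℕ, ¬ (p : ℤ) ∣ TF f N j := by
    intro p hp
    obtain ⟨n, hn⟩ := hf.adm p hp
    refine ⟨n + (p * N - N), fun hd => ?_⟩
    rw [TF_dvd f N _ hp] at hd
    have h2 : N ≤ p * N := Nat.le_mul_of_pos_left N hp.pos
    have h3 : N + (n + (p * N - N)) = n + p * N := by omega
    rw [h3, Q_mod, Nat.add_mul_mod_self_left, ← Q_mod] at hd
    obtain ⟨i, hi⟩ := hd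
    exact hn i hi
  have habs : ∀ j, (TF f N j).natAbs = ∏ i, ((f i).eval ((N + j : ℕ) : ℤ)).natAbs := by
    intro j
    unfold TF
    exact map_prod Int.natAbsHom _ _
  have hsize : ∀ j : ℕ, j < b ^ K → (TF f N j).natAbs ≤ b ^ ((D + 3) * e * k * K) := by
    intro j hj
    rw [habs]
    have e1 : b ^ ((D + 3) * e * k * K) = ∏ _i : ι, (b ^ ((D + 3) * K)) ^ e := by
      rw [prod_const, card_univ, hk, ← pow_mul, ← pow_mul]
      congr 1
      ring
    rw [e1]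
    apply Finset.prod_le_prod (fun _ _ => Nat.zero_le _)
    intro i _
    refine (hgr _ i).trans (Nat.pow_le_pow_left ?_ _)
    have h2 : b ^ (D * K) ≤ b ^ ((D + 1) * K) := Nat.pow_le_pow_right (by omega) (by nlinarith)
    have h3 : b ^ K ≤ b ^ ((D + 1) * K) := Nat.pow_le_pow_right (by omega) (by nlinarith)
    have h4 : b ^ ((D + 2) * K) = b ^ ((D + 1) * K) * b ^ K := by rw [← pow_add]; congr 1; ring
    have h4' : b ^ ((D + 2) * K) ≤ b ^ ((D + 3) * K) := Nat.pow_le_pow_right (by omega) (by nlinarith)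
    have h6 : 4 ≤ b ^ K := by
      calc 4 = 2 ^ 2 := by norm_num
        _ ≤ 2 ^ K := Nat.pow_le_pow_right (by norm_num) (by omega)
        _ ≤ b ^ K := Nat.pow_le_pow_left hb K
    nlinarith
  obtain ⟨h2, h3⟩ := hK (TF f N) hpoly hadm' hsize A hA hprod
  obtain ⟨hW1, hW2⟩ := hWK N
  constructor
  · rintro ⟨d, hd, hcop⟩
    have h4 := h2 ⟨d, hd, by
      rw [habs]
      exact Nat.Coprime.prod_left fun i _ => hcop i⟩
    calc κ * v * NA K A / (K : ℝ) ^ k = κ * NA K A * (v / (K : ℝ) ^ k) := by ring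
      _ ≤ κ * NA K A * WG (TF f N) (b ^ K) := mul_le_mul_of_nonneg_left hW1 (by positivity)
      _ ≤ _ := h4
      _ ≤ _ := by
          have h5 := ND_mono' (b := b) (K := K) (A := A)
            (S := Alm (TF f N) r (b ^ K))
            (T := {j | ∀ i, (∀ p : ℕ, p.Prime → (p : ℤ) ∣ (f i).eval ((N + j : ℕ) : ℤ) → b ^ K < p ^ r) ∧
              ((f i).eval ((N + j : ℕ) : ℤ)).natAbs.primeFactorsList.length ≤ r}) (fun j _ hj => by
              obtain ⟨hj2, hj3⟩ := hj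
              refine fun i => ⟨fun p hp hd => hj2 p hp ((TF_dvd f N j hp).2 ⟨i, hd⟩), ?_⟩
              have hne : (TF f N j).natAbs ≠ 0 := by
                intro h0
                have h6 := hj2 2 Nat.prime_two (by rw [Int.natAbs_eq_zero.1 h0]; exact dvd_zero _)
                have h7 : 2 ^ r ≤ 2 ^ K := Nat.pow_le_pow_right (by norm_num) (by omega)
                have h8 : 2 ^ K ≤ b ^ K := Nat.pow_le_pow_left hb K
                omega
              have h6 : ((f i).eval ((N + j : ℕ) : ℤ)).natAbs ∣ (TF f N j).natAbs := by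
                rw [habs]
                exact dvd_prod_of_mem (fun i => ((f i).eval ((N + j : ℕ) : ℤ)).natAbs) (mem_univ i)
              exact (Nat.primeFactorsList_sublist_of_dvd h6 hne).length_le.trans hj3)
          exact_mod_cast h5
  · have h5 := ND_mono' (b := b) (K := K) (A := A)
      (S := {j | ∀ i, ∀ p : ℕ, p.Prime → (p : ℤ) ∣ (f i).eval ((N + j : ℕ) : ℤ) → j < p ^ r})
      (T := Rgh (TF f N) r)
      (fun j _ hj p hp hd => by
        obtain ⟨i, hd⟩ := (TF_dvd f N j hp).1 hd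
        exact hj i p hp hd)
    calc (ND b K A {j | ∀ i, ∀ p : ℕ, p.Prime → (p : ℤ) ∣ (f i).eval ((N + j : ℕ) : ℤ) → j < p ^ r} : ℝ) ≤
        ND b K A (Rgh (TF f N) r) := by exact_mod_cast h5
      _ ≤ C * NA K A * WG (TF f N) (b ^ K) := h3
      _ ≤ C * NA K A * (Cv / (K : ℝ) ^ k) := mul_le_mul_of_nonneg_left hW2 (by positivity)
      _ = _ := by ring

/-- the members with few prime factors, all of them large -/
def AlP (f : ι → ℤ[X]) (b K r : ℕ) : Set ℕ :=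
  {m | ∀ i, (∀ p : ℕ, p.Prime → (p : ℤ) ∣ (f i).eval (m : ℤ) → b ^ K < p ^ r) ∧
    ((f i).eval (m : ℤ)).natAbs.primeFactorsList.length ≤ r}

/-- the members all of whose prime factors are large -/
def RoP (f : ι → ℤ[X]) (b K r : ℕ) : Set ℕ :=
  {m | ∀ i, ∀ p : ℕ, p.Prime → (p : ℤ) ∣ (f i).eval (m : ℤ) → b ^ K < p ^ r ∨ m ≤ p}

/-- **All short intervals.** -/
theorem int (f : ι → ℤ[X]) (hf : Sys f) (k : ℕ) (hk : Fintype.card ι = k) (e : ℕ)
    (hgr : ∀ (m : ℕ) (i : ι), ((f i).eval (m : ℤ)).natAbs ≤ (m + 2) ^ e) (D : ℕ) :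
    ∃ c : ℝ, 0 < c ∧ ∃ r0 : ℕ, 2 ≤ r0 ∧ ∀ r : ℕ, r0 ≤ r → ∀ b : ℕ, 2 ≤ b → ∀ M : ℕ, ∃ κ C : ℝ, 0 < κ ∧ 0 < C ∧
      ∀ᶠ K : ℕ in atTop, ∀ x y : ℕ, 3 * b ^ K ≤ y → y ≤ M * b ^ K → x ≤ b ^ (D * K) → ∀ A : ℕ → Finset ℕ,
        (∀ i < K, A i ⊆ range b) → (b : ℝ) ^ K ≤ Real.exp (c * K) * NA K A →
        ((∃ d ∈ A 0, ∀ i, ((f i).eval (d : ℤ)).natAbs.Coprime b) →
          κ * NA K A / (K : ℝ) ^ k ≤ IC b K A x (x + y) (AlP f b K r)) ∧
        (IC b K A x (x + y) (RoP f b K r) : ℝ) ≤ C * NA K A / (K : ℝ) ^ k := by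
  classical
  obtain ⟨c, hc, r0, hr0, h⟩ := shift f hf k hk e hgr (D + 3)
  refine ⟨c, hc, r0, hr0, fun r hr b hb M => ?_⟩
  have h2r : 2 ≤ r := hr0.trans hr
  obtain ⟨κ, C, hκ, hC, h1⟩ := h r hr b hb
  refine ⟨κ, (M + 2) * C, hκ, by positivity, ?_⟩
  filter_upwards [h1, eventually_ge_atTop (M + 4)] with K hKK hK x y hy1 hy2 hx A hA hprod
  have hb0 : 0 < b := by omega
  have hbK0 : 0 < b ^ K := by positivity
  have hKb : K < b ^ K := Nat.lt_pow_self (by omega)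
  have hxy : x + y ≤ b ^ ((D + 3) * K) := by
    have e1 : x ≤ b ^ ((D + 2) * K) := hx.trans (Nat.pow_le_pow_right hb0 (by nlinarith))
    have e2 : y ≤ b ^ ((D + 2) * K) := by
      calc y ≤ M * b ^ K := hy2
        _ ≤ b ^ K * b ^ K := Nat.mul_le_mul_right _ (by omega)
        _ = b ^ (2 * K) := by rw [two_mul, pow_add]
        _ ≤ b ^ ((D + 2) * K) := Nat.pow_le_pow_right hb0 (by nlinarith)
    have e3 : 2 ≤ b ^ K := by omega
    have e4 : b ^ ((D + 3) * K) = b ^ ((D + 2) * K) * b ^ K := by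
      rw [← pow_add]; congr 1; ring
    rw [e4]
    nlinarith
  have hNA := NA_nonneg K A
  constructor
  · rintro ⟨d, hd, hcop⟩
    have ht1 : x < b ^ K * (x / b ^ K + 1) := by
      have := Nat.lt_mul_div_succ x hbK0
      exact this
    have ht2 : b ^ K * (x / b ^ K + 1) ≤ x + b ^ K := by
      have := Nat.mul_div_le x (b ^ K)
      rw [mul_add, mul_one]
      omega
    obtain ⟨h2, -⟩ := hKK (b ^ K * (x / b ^ K + 1)) (by omega) A hA hprod
    refine (h2 ⟨d, hd, fun i => ?_⟩).trans ?_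
    · obtain ⟨K', rfl⟩ : ∃ K', K = K' + 1 := ⟨K - 1, by omega⟩
      have hdv : (b : ℤ) ∣ (f i).eval ((b ^ (K' + 1) * (x / b ^ (K' + 1) + 1) + d : ℕ) : ℤ) -
          (f i).eval (d : ℤ) := by
        refine dvd_trans ?_ (sub_dvd_eval_sub _ _ _)
        refine ⟨(b : ℤ) ^ K' * ((x / b ^ (K' + 1) + 1 : ℕ) : ℤ), ?_⟩
        push_cast
        ring
      obtain ⟨z, hz⟩ := hdv
      have hz' : (f i).eval ((b ^ (K' + 1) * (x / b ^ (K' + 1) + 1) + d : ℕ) : ℤ) =
          (f i).eval (d : ℤ) + b * z := by linarith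
      have h5 : IsCoprime ((f i).eval (d : ℤ)) (b : ℤ) := by
        rw [Int.isCoprime_iff_gcd_eq_one]
        have := hcop i
        unfold Nat.Coprime at this
        rw [Int.gcd, Int.natAbs_natCast]
        exact this
      have h6 : IsCoprime ((f i).eval (d : ℤ) + b * z) (b : ℤ) := h5.add_mul_left_left z
      rw [← hz', Int.isCoprime_iff_gcd_eq_one, Int.gcd, Int.natAbs_natCast] at h6
      exact h6
    · apply Nat.cast_le.2
      apply IC_lower hb0 ht1 (by omega)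
      intro j hj hjS
      exact hjS
  · have h3 : ∀ t ∈ Icc (x / b ^ K) ((x + y) / b ^ K),
        (ND b K A {j | b ^ K * t + j ∈ RoP f b K r} : ℝ) ≤ C * NA K A / (K : ℝ) ^ k := by
      intro t ht
      rw [mem_Icc] at ht
      have h4 : b ^ K * t ≤ x + y := (Nat.mul_le_mul_left _ ht.2).trans (Nat.mul_div_le _ _)
      obtain ⟨-, h5⟩ := hKK (b ^ K * t) (by omega) A hA hprod
      refine le_trans ?_ h5
      apply Nat.cast_le.2
      apply ND_mono'
      intro j hj hjS i p hp hd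
      rcases hjS i p hp hd with h6 | h6
      · exact hj.trans h6
      · exact lt_pow_of_le hp (by omega) h2r
    have h4 : ((Icc (x / b ^ K) ((x + y) / b ^ K)).card : ℝ) ≤ M + 2 := by
      rw [Nat.card_Icc]
      have h5 : (x + y) / b ^ K ≤ x / b ^ K + M + 1 := by
        rw [← Nat.lt_succ_iff]
        apply Nat.div_lt_of_lt_mul
        have h6 := Nat.lt_mul_div_succ x hbK0
        have h7 : b ^ K * (x / b ^ K + M + 1).succ = b ^ K * (x / b ^ K + 1) + M * b ^ K + b ^ K := by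
          rw [Nat.succ_eq_add_one]; ring
        rw [h7]
        omega
      have h6 : (x + y) / b ^ K + 1 - x / b ^ K ≤ M + 2 := by omega
      exact_mod_cast h6
    calc (IC b K A x (x + y) (RoP f b K r) : ℝ) ≤
        ((∑ t ∈ Icc (x / b ^ K) ((x + y) / b ^ K),
          ND b K A {j | b ^ K * t + j ∈ RoP f b K r} : ℕ) : ℝ) :=
          Nat.cast_le.2 (IC_upper hb0 A x (x + y) _)
      _ = ∑ t ∈ Icc (x / b ^ K) ((x + y) / b ^ K),
          (ND b K A {j | b ^ K * t + j ∈ RoP f b K r} : ℝ) := Nat.cast_sum _ _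
      _ ≤ (Icc (x / b ^ K) ((x + y) / b ^ K)).card • (C * NA K A / (K : ℝ) ^ k) := sum_le_card_nsmul _ _ _ h3
      _ = (Icc (x / b ^ K) ((x + y) / b ^ K)).card * (C * NA K A / (K : ℝ) ^ k) := nsmul_eq_mul _ _
      _ ≤ (M + 2) * (C * NA K A / (K : ℝ) ^ k) := mul_le_mul_of_nonneg_right h4 (by positivity)
      _ = _ := by ring

end Pool.Agent.V7H96.RP
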