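import Pool.Agent.V7H96.RPair

set_option autoImplicit false

/-!
# Almost prime pairs `m ^ 2 + 1`, `m ^ 2 + 3` with restricted digits of `m`, in all short intervals

For every `E` there is a `c > 0`, depending only on `E`, such that the following holds for all large
`r` and all bases `b ≥ 2`. Let `L` be large, `B ≤ L ^ E`, and let `K = log_b (L / 3)` (rounded down), so
that `b ^ K` has the size of `L`. Let `A 0, ..., A (K - 1)` be ARBITRARY sets of digits with
`|A 0| ... |A (K - 1)| ≥ exp (- c K) b ^ K`.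

* If some `d` in `A 0` has `d ^ 2 + 1` and `d ^ 2 + 3` coprime to `b`, then at least
  `κ |A 0| ... |A (K - 1)| / K ^ 2` of the `m` in the interval `(B, B + L)` whose `i`-th digit belongs to
  `A i` for all `i < K` are such that `m ^ 2 + 1` and `m ^ 2 + 3` have at most `r` prime factors each, all
  of them larger than `b ^ (K / r)`.
* At most `C |A 0| ... |A (K - 1)| / K ^ 2` of them have this property or are such that `m ^ 2 + 1` and
  `m ^ 2 + 3` are both prime.

Since `c` does not depend on the base, the sets `A i` may be obtained by forbidding any `c b / 2` digits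
at every place (a different set of digits at every place) in any base `b`, or by prescribing the
digits at any `c' K` places, with `c' = c / log b`. The true order of magnitude of the number of the
prime pairs, by the Bateman-Horn conjecture, is the one of the upper bound.
-/

namespace Pool.Agent.Results.MP_2dba45_nt.RestrictedDigitsH96

open Finset Filter

open Classical in
/-- The number of the `m` with `B < m < B + L` whose `i`-th digit in base `b` belongs to `A i` for all
`i < K`, for which `m ^ 2 + 1` and `m ^ 2 + 3` have at most `r` prime factors each, and all their prime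
factors `p` satisfy `p ^ r > b ^ K`. -/
noncomputable def Almost (b K r : ℕ) (A : ℕ → Finset ℕ) (B L : ℕ) : ℕ :=
  ((Ioo B (B + L)).filter (fun m => (∀ i < K, m / b ^ i % b ∈ A i) ∧
    (∀ p : ℕ, p.Prime → (p ∣ m ^ 2 + 1 ∨ p ∣ m ^ 2 + 3) → b ^ K < p ^ r) ∧
    (m ^ 2 + 1).primeFactorsList.length ≤ r ∧ (m ^ 2 + 3).primeFactorsList.length ≤ r)).card

open Classical in
/-- The number of the `m` with `B < m < B + L` whose `i`-th digit in base `b` belongs to `A i` for all
`i < K`, for which `m ^ 2 + 1` and `m ^ 2 + 3` are both prime. -/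
noncomputable def Both (b K : ℕ) (A : ℕ → Finset ℕ) (B L : ℕ) : ℕ :=
  ((Ioo B (B + L)).filter (fun m => (∀ i < K, m / b ^ i % b ∈ A i) ∧
    (m ^ 2 + 1).Prime ∧ (m ^ 2 + 3).Prime)).card

/-- the number of choices of the digits -/
noncomputable def choices (K : ℕ) (A : ℕ → Finset ℕ) : ℝ := ∏ i ∈ range K, ((A i).card : ℝ)

/-- **Restricted digits in all short intervals.** -/
theorem result (E : ℕ) :
    ∃ c : ℝ, 0 < c ∧ ∃ r₀ : ℕ, 2 ≤ r₀ ∧ ∀ r : ℕ, r₀ ≤ r → ∀ b : ℕ, 2 ≤ b →
      ∃ κ C : ℝ, 0 < κ ∧ 0 < C ∧ ∀ᶠ L : ℕ in atTop, ∀ B : ℕ, B ≤ L ^ E →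
        ∀ K : ℕ, K = Nat.log b (L / 3) → ∀ A : ℕ → Finset ℕ, (∀ i < K, A i ⊆ range b) →
          (b : ℝ) ^ K ≤ Real.exp (c * K) * choices K A →
          ((∃ d ∈ A 0, (d ^ 2 + 1).Coprime b ∧ (d ^ 2 + 3).Coprime b) →
            κ * choices K A / (K : ℝ) ^ 2 ≤ Almost b K r A B L) ∧
          (Almost b K r A B L : ℝ) ≤ C * choices K A / (K : ℝ) ^ 2 ∧
          (Both b K A B L : ℝ) ≤ C * choices K A / (K : ℝ) ^ 2 := by
  classical
  obtain ⟨c, hc, r0, hr0, h⟩ := Pool.Agent.V7H96.RP.final Pool.Agent.V7H96.P13.f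
    Pool.Agent.V7H96.P13.sys 2 (by simp) 2
    (fun m i => by
      rw [Pool.Agent.V7H96.P13.f_eval, Int.natAbs_natCast]
      have h1 := i.isLt
      have h2 : (m + 2) ^ 2 = m ^ 2 + 4 * m + 4 := by ring
      omega)
    (fun z r => {m | (∀ p : ℕ, p.Prime → (p ∣ m ^ 2 + 1 ∨ p ∣ m ^ 2 + 3) → z < p ^ r) ∧
      (m ^ 2 + 1).primeFactorsList.length ≤ r ∧ (m ^ 2 + 3).primeFactorsList.length ≤ r})
    (fun z r => {m | ∀ p : ℕ, p.Prime → (p ∣ m ^ 2 + 1 ∨ p ∣ m ^ 2 + 3) → z < p ^ r ∨ m ≤ p})
    (fun z r m hm => by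
      have h0 := hm 0
      have h1 := hm 1
      rw [Pool.Agent.V7H96.P13.f_eval] at h0 h1
      refine ⟨?_, ?_, ?_⟩
      · rintro p hp (hd | hd)
        · exact h0.1 p hp (by
            rw [Int.natCast_dvd_natCast]
            simpa using hd)
        · exact h1.1 p hp (by
            rw [Int.natCast_dvd_natCast]
            simpa using hd)
      · have := h0.2
        rw [Int.natAbs_natCast] at this
        simpa using this
      · have := h1.2
        rw [Int.natAbs_natCast] at this
        simpa using this)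
    (fun z r m hm i p hp hd => by
      rw [Pool.Agent.V7H96.P13.f_eval, Int.natCast_dvd_natCast] at hd
      refine hm p hp ?_
      fin_cases i
      · exact Or.inl (by simpa using hd)
      · exact Or.inr (by simpa using hd))
    (fun b d => (d ^ 2 + 1).Coprime b ∧ (d ^ 2 + 3).Coprime b)
    (fun b d hbd i => by
      rw [Pool.Agent.V7H96.P13.f_eval, Int.natAbs_natCast]
      fin_cases i
      · simpa using hbd.1
      · simpa using hbd.2) E
  refine ⟨c, hc, r0, hr0, fun r hr b hb => ?_⟩
  obtain ⟨κ, C, hκ, hC, h1⟩ := h r hr b hb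
  refine ⟨κ, C, hκ, hC, ?_⟩
  filter_upwards [h1] with L hL B hB K hK A hA hprod
  obtain ⟨h2, h3⟩ := hL B hB K hK A hA hprod
  refine ⟨fun hd => (h2 hd).trans (Nat.cast_le.2 ?_), le_trans (Nat.cast_le.2 ?_) h3,
    le_trans (Nat.cast_le.2 ?_) h3⟩
  · unfold Pool.Agent.V7H96.RP.Cnt Almost
    apply card_le_card
    intro m hm
    simp only [Finset.mem_filter, Set.mem_ofPred_eq] at hm ⊢
    exact hm
  · unfold Pool.Agent.V7H96.RP.Cnt Almost
    apply card_le_card
    intro m hm
    simp only [Finset.mem_filter, Set.mem_ofPred_eq] at hm ⊢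
    exact ⟨hm.1, hm.2.1, fun p hp hd => Or.inl (hm.2.2.1 p hp hd)⟩
  · unfold Pool.Agent.V7H96.RP.Cnt Both
    apply card_le_card
    intro m hm
    simp only [Finset.mem_filter, Set.mem_ofPred_eq] at hm ⊢
    refine ⟨hm.1, hm.2.1, fun p hp hd => Or.inr ?_⟩
    rcases hd with hd | hd
    · rw [(Nat.prime_dvd_prime_iff_eq hp hm.2.2.1).1 hd]
      nlinarith
    · rw [(Nat.prime_dvd_prime_iff_eq hp hm.2.2.2).1 hd]
      nlinarith

end Pool.Agent.Results.MP_2dba45_nt.RestrictedDigitsH96
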