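import Pool.Agent.V7H96.SpTup
import Pool.Agent.V7H96.HLProd

set_option autoImplicit false

/-!
# The constants of Hardy and Littlewood for almost prime tuples in all short intervals
-/

namespace Pool.Agent.V7H96.SH

open Finset Filter Topology
open Pool.Agent.V7H96.SP Pool.Agent.V7H96.HL

open Classical in
/-- The number of the `n` in `(A, A + L]` for which no `n + h`, `h ∈ H`, has a prime factor `≤ s`. -/
noncomputable def Cnt (H : Finset ℕ) (s A L : ℕ) : ℕ :=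
  ((Ioc A (A + L)).filter (fun n => ∀ p : ℕ, p.Prime → p ≤ s → ∀ h ∈ H, ¬ p ∣ n + h)).card

/-- the admissible classes modulo `30` -/
def cls (H : Finset ℕ) : Finset ℕ := (range 30).filter (fun c => ∀ h ∈ H, Nat.Coprime 30 (c + h))

lemma dvd_of (p : ℕ) (hp : p ∣ 30) (m c h : ℕ) : p ∣ 30 * m + c + h ↔ p ∣ c + h := by
  have h1 : 30 * m + c + h = 30 * m + (c + h) := by ring
  rw [h1]
  exact Nat.dvd_add_right (Dvd.dvd.mul_right hp m)

open Classical in
/-- the count as a sum over the classes -/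
lemma cnt_eq (H : Finset ℕ) (hH : ∃ h ∈ H, 0 < h ∧ h ≤ 12) (s A L : ℕ) (hs : 50 ≤ s) :
    Cnt H s A L = ∑ c ∈ cls H, D H 30 c s 1 0 ((A - c) / 30) ((A + L - c) / 30 - (A - c) / 30) := by
  unfold Cnt
  rw [Finset.card_eq_sum_card_fiberwise (f := fun n => n % 30) (t := cls H)]
  · apply Finset.sum_congr rfl
    intro c hc
    unfold cls at hc
    rw [mem_filter, mem_range] at hc
    obtain ⟨hc30, hcc⟩ := hc
    unfold D
    symm
    apply Finset.card_bij (fun m _ => 30 * m + c)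
    · intro m hm
      rw [mem_filter, mem_Ioc] at hm
      obtain ⟨⟨h1, h2⟩, h3, -⟩ := hm
      rw [mem_filter, mem_filter, mem_Ioc]
      refine ⟨⟨⟨by omega, by omega⟩, ?_⟩, by omega⟩
      intro p hp hps h hh
      exact h3 p hp hps h hh
    · intro a _ b _ hab
      have hab' : 30 * a + c = 30 * b + c := hab
      omega
    · intro n hn
      rw [mem_filter, mem_filter, mem_Ioc] at hn
      obtain ⟨⟨⟨h1, h2⟩, h3⟩, h4⟩ := hn
      have hn30 : 30 * (n / 30) + c = n := by omega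
      have hpos : 0 < n / 30 := by
        by_contra hcon
        have hlt : n < 30 := by omega
        obtain ⟨h, hh, hh0, hh12⟩ := hH
        have h5 : n + h ≠ 1 := by omega
        have h6 := h3 (n + h).minFac (Nat.minFac_prime h5)
          ((Nat.minFac_le (by omega)).trans (by omega)) h hh
        exact h6 (Nat.minFac_dvd _)
      refine ⟨n / 30, ?_, hn30⟩
      rw [mem_filter, mem_Ioc]
      refine ⟨⟨by omega, by omega⟩, ?_, ?_⟩
      · intro p hp hps h hh
        rw [hn30]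
        exact h3 p hp hps h hh
      · simp
  · intro n hn
    rw [Finset.mem_coe, mem_filter, mem_Ioc] at hn
    rw [Finset.mem_coe]
    unfold cls
    rw [mem_filter, mem_range]
    refine ⟨Nat.mod_lt _ (by norm_num), ?_⟩
    intro h hh
    rw [Nat.coprime_iff_gcd_eq_one]
    by_contra hg
    obtain ⟨p, hp, hpd⟩ := Nat.exists_prime_and_dvd hg
    have h30 : p ∣ 30 := hpd.trans (Nat.gcd_dvd_left _ _)
    have h5 : p ∣ n % 30 + h := hpd.trans (Nat.gcd_dvd_right _ _)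
    refine hn.2 p hp ((Nat.le_of_dvd (by norm_num) h30).trans (by omega)) h hh ?_
    have h6 : 30 * (n / 30) + n % 30 = n := Nat.div_add_mod n 30
    rw [← h6]
    exact (dvd_of p h30 _ _ _).2 h5

/-- the density in terms of the products of `HLProd` -/
lemma V_eq (k s : ℕ) : V k 30 s = Wz k s * Dz s := by
  unfold V Wz Dz
  rw [← Finset.prod_mul_distrib]
  have hset : (Finset.range (s + 1)).filter Nat.Prime = (Icc 1 s).filter Nat.Prime := by
    ext p
    simp only [mem_filter, mem_range, mem_Icc]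
    constructor
    · rintro ⟨h1, h2⟩
      exact ⟨⟨h2.one_lt.le, by omega⟩, h2⟩
    · rintro ⟨h1, h2⟩
      exact ⟨by omega, h2⟩
  rw [hset]
  apply Finset.prod_congr rfl
  intro p hp
  have hpp := (mem_filter.1 hp).2
  have hp2 : (2 : ℝ) ≤ p := by exact_mod_cast hpp.two_le
  have h1 : 1 - 1 / (p : ℝ) ≠ 0 := by
    have : 1 / (p : ℝ) ≤ 1 / 2 := one_div_le_one_div_of_le (by norm_num) hp2
    linarith
  rw [div_mul_cancel₀ _ h1]

lemma V_lim (k : ℕ) (K C : ℝ) (F : ℕ → ℝ)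
    (hW : ∀ z : ℕ, 5 ≤ z → Wz (k + 1) z = K *
      (∏ p ∈ (Finset.range (z + 1)).filter (fun p => p.Prime ∧ 3 < p), F p) * Dz z ^ k)
    (hC : Tendsto (fun N : ℕ =>
      ∏ p ∈ (Finset.range N).filter (fun p => p.Prime ∧ 3 < p), F p) atTop (𝓝 C))
    (r : ℕ) (hr : 0 < r) :
    Tendsto (fun n : ℕ => V (k + 1) 30 ⌊(n : ℝ) ^ (1 / (r : ℝ))⌋₊ * Real.log n ^ (k + 1)) atTop
      (𝓝 (K * C * (Real.exp (-Real.eulerMascheroniConstant) * r) ^ (k + 1))) := by
  have h1 := (Wz_lim k K C F hW hC r hr).mul (DL_lim r hr)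
  rw [mul_assoc, ← pow_succ] at h1
  refine h1.congr fun n => ?_
  rw [V_eq]
  ring

/-- from the count in terms of `Z` to the count in terms of the limit -/
lemma assemble (j : ℕ) (Z : ℕ → ℝ) (L c ε : ℝ) (hL : 0 < L) (hc : 0 < c) (hε : 0 < ε) (hε1 : ε ≤ 1)
    (hlim : Tendsto (fun n : ℕ => Z n * Real.log n ^ j) atTop (𝓝 L)) :
    ∀ᶠ n : ℕ in atTop, ∀ (P Y : ℝ), 0 ≤ Y →
      |P - c * (Y / 30 * Z n)| ≤ ε / 4 * (c * (Y / 30 * Z n)) →
      |P * Real.log n ^ j - Y * (c / 30 * L)| ≤ ε * (Y * (c / 30 * L)) := by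
  have h1 : ∀ᶠ n : ℕ in atTop, |Z n * Real.log n ^ j - L| < ε / 4 * L := by
    have := (tendsto_order.1 (tendsto_iff_dist_tendsto_zero.1 hlim)).2 (ε / 4 * L) (by positivity)
    filter_upwards [this] with n hn
    rwa [Real.dist_eq] at hn
  filter_upwards [h1, eventually_ge_atTop 2] with n h1 h2 P Y hY hP
  have hnr : (2 : ℝ) ≤ n := by exact_mod_cast h2
  have hl : 0 < Real.log n := Real.log_pos (by linarith)
  obtain ⟨W, hW⟩ : ∃ W : ℝ, W = Z n := ⟨_, rfl⟩
  rw [← hW] at h1 hP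
  obtain ⟨l, hlk⟩ : ∃ l : ℝ, l = Real.log n ^ j := ⟨_, rfl⟩
  have hl0 : 0 < l := by rw [hlk]; positivity
  rw [← hlk] at h1 ⊢
  obtain ⟨a1, a2⟩ := abs_lt.1 h1
  obtain ⟨b1, b2⟩ := abs_le.1 hP
  have hYc : 0 ≤ Y * (c / 30) := by positivity
  have d1 : P * l ≤ (1 + ε / 4) * (Y * (c / 30)) * (W * l) := by
    have : P ≤ (1 + ε / 4) * (Y * (c / 30)) * W := by linarith
    calc P * l ≤ (1 + ε / 4) * (Y * (c / 30)) * W * l := mul_le_mul_of_nonneg_right this hl0.le
      _ = _ := by ring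
  have d2 : (1 - ε / 4) * (Y * (c / 30)) * (W * l) ≤ P * l := by
    have : (1 - ε / 4) * (Y * (c / 30)) * W ≤ P := by linarith
    calc (1 - ε / 4) * (Y * (c / 30)) * (W * l) = (1 - ε / 4) * (Y * (c / 30)) * W * l := by ring
      _ ≤ P * l := mul_le_mul_of_nonneg_right this hl0.le
  have e1 : (1 + ε / 4) * (Y * (c / 30)) * (W * l) ≤
      (1 + ε / 4) * (Y * (c / 30)) * ((1 + ε / 4) * L) :=
    mul_le_mul_of_nonneg_left (by linarith) (by positivity)
  have e2 : (1 - ε / 4) * (Y * (c / 30)) * ((1 - ε / 4) * L) ≤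
      (1 - ε / 4) * (Y * (c / 30)) * (W * l) :=
    mul_le_mul_of_nonneg_left (by linarith) (mul_nonneg (by linarith) hYc)
  have hM : 0 ≤ Y * (c / 30) * L := by positivity
  have f1 : (1 + ε / 4) * (Y * (c / 30)) * ((1 + ε / 4) * L) ≤ (1 + ε) * (Y * (c / 30) * L) := by
    have : (1 + ε / 4) * (1 + ε / 4) ≤ 1 + ε := by nlinarith
    calc (1 + ε / 4) * (Y * (c / 30)) * ((1 + ε / 4) * L) =
        (1 + ε / 4) * (1 + ε / 4) * (Y * (c / 30) * L) := by ring
      _ ≤ _ := mul_le_mul_of_nonneg_right this hM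
  have f2 : (1 - ε) * (Y * (c / 30) * L) ≤ (1 - ε / 4) * (Y * (c / 30)) * ((1 - ε / 4) * L) := by
    have : 1 - ε ≤ (1 - ε / 4) * (1 - ε / 4) := by nlinarith
    calc (1 - ε) * (Y * (c / 30) * L) ≤ (1 - ε / 4) * (1 - ε / 4) * (Y * (c / 30) * L) :=
        mul_le_mul_of_nonneg_right this hM
      _ = _ := by ring
  rw [abs_le]
  constructor <;> linarith

lemma V_pos (k s : ℕ) (hk : k ≤ 6) : 0 < V k 30 s := by
  unfold V
  apply Finset.prod_pos
  intro p hp
  have hpp := (mem_filter.1 hp).2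
  split_ifs with h
  · norm_num
  · have hp7 : 7 ≤ p := by
      by_contra hcon
      have h6 : p ≤ 6 := by omega
      have := hpp.two_le
      interval_cases p
      · exact h (by norm_num)
      · exact h (by norm_num)
      · exact absurd hpp (by norm_num)
      · exact h (by norm_num)
      · exact absurd hpp (by norm_num)
    have hpr : (7 : ℝ) ≤ p := by exact_mod_cast hp7
    have hkr : (k : ℝ) ≤ 6 := by exact_mod_cast hk
    rw [sub_pos, div_lt_one (by linarith)]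
    linarith

/-- **Almost prime tuples in short intervals, in terms of the density.** -/
theorem count {H : Finset ℕ} {k : ℕ} (hH : OK H k) (hk : k ≤ 6) (hH2 : ∃ h ∈ H, 0 < h ∧ h ≤ 12)
    (c : ℕ) (hc : (cls H).card = c) (θ : ℝ) (hθ : 0 < θ) (ε : ℝ) (hε : 0 < ε) (hε1 : ε ≤ 1) :
    ∃ r₀ : ℕ, ∀ r : ℕ, r₀ ≤ r → ∀ᶠ X : ℕ in atTop, ∀ s : ℕ, s = ⌊(X : ℝ) ^ (1 / (r : ℝ))⌋₊ →
      ∀ A L : ℕ, (X : ℝ) ^ θ ≤ L →
        |(Cnt H s A L : ℝ) - c * (L / 30 * V k 30 s)| ≤ ε * (c * (L / 30 * V k 30 s)) := by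
  obtain ⟨r0, h0⟩ := law hH 1 le_rfl (θ / 2) (by linarith) 1 0 (ε / 4) (by linarith)
  refine ⟨max r0 1, fun r hr => ?_⟩
  have hr0 : 0 < r := (le_max_right r0 1).trans hr
  have hrr : (0 : ℝ) < r := by exact_mod_cast hr0
  have hpow : Tendsto (fun n : ℕ => (n : ℝ) ^ (1 / (r : ℝ))) atTop atTop :=
    (tendsto_rpow_atTop (by positivity)).comp tendsto_natCast_atTop_atTop
  have hfl : Tendsto (fun n : ℕ => ⌊(n : ℝ) ^ (1 / (r : ℝ))⌋₊) atTop atTop :=
    tendsto_nat_floor_atTop.comp hpow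
  have hθ2 : Tendsto (fun n : ℕ => (n : ℝ) ^ (θ / 2)) atTop atTop :=
    (tendsto_rpow_atTop (by positivity)).comp tendsto_natCast_atTop_atTop
  filter_upwards [h0 r ((le_max_left _ _).trans hr), hfl.eventually_ge_atTop 50,
    hθ2.eventually_ge_atTop (max 100 (480 / ε)), eventually_ge_atTop 100] with X hX h50 hb hX100
  intro s hs A L hL
  have hs50 : 50 ≤ s := by rw [hs]; exact h50
  have hX0 : (0 : ℝ) < X := by exact_mod_cast (by omega : 0 < X)
  have hb1 : (100 : ℝ) ≤ (X : ℝ) ^ (θ / 2) := (le_max_left _ _).trans hb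
  have hb2 : 480 / ε ≤ (X : ℝ) ^ (θ / 2) := (le_max_right _ _).trans hb
  have hsq : (X : ℝ) ^ θ = (X : ℝ) ^ (θ / 2) * (X : ℝ) ^ (θ / 2) := by
    rw [← Real.rpow_add hX0]
    congr 1
    ring
  have hLb : 100 * (X : ℝ) ^ (θ / 2) ≤ L := by
    refine le_trans ?_ hL
    rw [hsq]
    exact mul_le_mul_of_nonneg_right hb1 (by linarith)
  have hLε : 480 ≤ ε * L := by
    have h1 : 480 / ε ≤ L := by linarith
    rw [div_le_iff₀ hε] at h1
    linarith
  have hL0 : (0 : ℝ) ≤ L := Nat.cast_nonneg L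
  have hVpos : 0 < V k 30 s := V_pos k s hk
  -- one class
  have hone : ∀ c ∈ cls H,
      |(D H 30 c s 1 0 ((A - c) / 30) ((A + L - c) / 30 - (A - c) / 30) : ℝ) - L / 30 * V k 30 s| ≤
        ε * (L / 30 * V k 30 s) := by
    intro c hc
    unfold cls at hc
    rw [mem_filter, mem_range] at hc
    obtain ⟨Y, hY⟩ : ∃ Y : ℕ, Y = (A + L - c) / 30 - (A - c) / 30 := ⟨_, rfl⟩
    rw [← hY]
    have hY1 : L ≤ 30 * Y + 60 := by omega
    have hY2 : 30 * Y ≤ L + 60 := by omega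
    have hY1r : (L : ℝ) ≤ 30 * Y + 60 := by exact_mod_cast hY1
    have hY2r : 30 * (Y : ℝ) ≤ L + 60 := by exact_mod_cast hY2
    have hYθ : (X : ℝ) ^ (θ / 2) ≤ Y := by linarith
    have h1 := hX s hs 30 c (by norm_num) (dvd_refl 30) (by rw [pow_one]; omega)
      (by rw [pow_one]; omega) hc.2 ((A - c) / 30) Y hYθ 1 0 (Or.inl le_rfl)
    simp only [Finset.range_one, Finset.sum_singleton, Nat.cast_zero, zero_mul, neg_zero,
      Real.exp_zero, pow_zero, Nat.factorial_zero, Nat.cast_one, mul_one, div_one] at h1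
    have h2 : |(Y : ℝ) * V k 30 s - L / 30 * V k 30 s| ≤ ε / 4 * (L / 30 * V k 30 s) := by
      rw [← sub_mul, abs_mul, abs_of_pos hVpos, ← mul_assoc]
      apply mul_le_mul_of_nonneg_right _ hVpos.le
      rw [abs_le]
      constructor <;> linarith
    have h3 : ε / 4 * (Y * V k 30 s) ≤ ε / 2 * (L / 30 * V k 30 s) := by
      have : ε / 4 * (Y : ℝ) ≤ ε / 2 * (L / 30) := by
        have h4 : (Y : ℝ) ≤ 2 * (L / 30) := by linarith
        nlinarith
      calc ε / 4 * (Y * V k 30 s) = ε / 4 * Y * V k 30 s := by ring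
        _ ≤ ε / 2 * (L / 30) * V k 30 s := mul_le_mul_of_nonneg_right this hVpos.le
        _ = _ := by ring
    have h5 : 0 ≤ L / 30 * V k 30 s := by positivity
    have h6 : |(D H 30 c s 1 0 ((A - c) / 30) Y : ℝ) - L / 30 * V k 30 s| ≤
        |(D H 30 c s 1 0 ((A - c) / 30) Y : ℝ) - Y * V k 30 s| +
          |(Y : ℝ) * V k 30 s - L / 30 * V k 30 s| := abs_sub_le _ _ _
    nlinarith
  rw [cnt_eq H hH2 s A L hs50, ← hc]
  push_cast
  have hsum : (((cls H).card : ℕ) : ℝ) * ((L : ℝ) / 30 * V k 30 s) =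
      ∑ _c ∈ cls H, (L : ℝ) / 30 * V k 30 s := by
    rw [Finset.sum_const, nsmul_eq_mul]
  rw [hsum, ← Finset.sum_sub_distrib, Finset.mul_sum]
  refine (Finset.abs_sum_le_sum_abs _ _).trans (Finset.sum_le_sum hone)

end Pool.Agent.V7H96.SH
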