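import Pool.Agent.R490.Tq

set_option autoImplicit false

/-!
# The spacing law for tuples in all progressions to moduli divisible by `30`
-/

namespace Pool.Agent.V7H96.SP

open Finset Filter

/-- none of the numbers `q m + a + h`, `h ∈ H`, has a prime factor `≤ s` -/
def Good (H : Finset ℕ) (q a s m : ℕ) : Prop :=
  ∀ p : ℕ, p.Prime → p ≤ s → ∀ h ∈ H, ¬ p ∣ q * m + a + h

/-- the product of `1 - k / p` over the primes `p ≤ s` which do not divide `q` -/
noncomputable def V (k q s : ℕ) : ℝ :=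
  ∏ p ∈ (Finset.range (s + 1)).filter Nat.Prime, (1 - (if p ∣ q then 0 else k : ℕ) / (p : ℝ))

open Classical in
/-- The number of the good `m` in `(u, u + Y]` for which fewer than `l` of the `T` integers before `m`
are good, that is, for which the distance from `m` to the `l`-th preceding good number is larger
than `T`. -/
noncomputable def D (H : Finset ℕ) (q a s l T u Y : ℕ) : ℕ :=
  ((Ioc u (u + Y)).filter (fun m => Good H q a s m ∧
    ((Ico (m - T) m).filter (fun m' => Good H q a s m')).card < l)).card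

/-- the assumptions on `H` used here -/
structure OK (H : Finset ℕ) (k : ℕ) : Prop where
  card : H.card = k
  two : 2 ≤ k
  adm : ∀ p : ℕ, p.Prime → ∃ m : ℕ, ∀ h ∈ H, ¬ p ∣ m + h
  le : ∀ h ∈ H, h ≤ 12
  dif : ∀ h ∈ H, ∀ h' ∈ H, ∀ p : ℕ, p.Prime → ¬ p ∣ 30 → h % p = h' % p → h = h'

lemma OK.nu {H : Finset ℕ} {k : ℕ} (hH : OK H k) {q p : ℕ} (hp : p.Prime) (hq : 30 ∣ q) :
    Pool.Agent.R490.Tq.nu H q p = if p ∣ q then 0 else k := by
  unfold Pool.Agent.R490.Tq.nu
  split_ifs with h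
  · rfl
  · have h30 : ¬ p ∣ 30 := fun hd => h (hd.trans hq)
    rw [Finset.card_image_of_injOn, hH.card]
    intro x hx y hy hxy
    exact hH.dif x hx y hy p hp h30 hxy

lemma OK.V_eq {H : Finset ℕ} {k : ℕ} (hH : OK H k) {q s : ℕ} (hq : 30 ∣ q) :
    Pool.Agent.R490.Tq.V H q s = V k q s := by
  unfold Pool.Agent.R490.Tq.V V
  apply Finset.prod_congr rfl
  intro p hp
  rw [hH.nu (mem_filter.1 hp).2 hq]

open Classical in
/-- **The spacing law.** -/
theorem law {H : Finset ℕ} {k : ℕ} (hH : OK H k) (A : ℕ) (hA : 1 ≤ A) (θ : ℝ) (hθ : 0 < θ) (l₀ : ℕ)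
    (x₀ ε : ℝ) (hε : 0 < ε) :
    ∃ r₀ : ℕ, ∀ r : ℕ, r₀ ≤ r → ∀ᶠ X : ℕ in atTop, ∀ s : ℕ, s = ⌊(X : ℝ) ^ (1 / (r : ℝ))⌋₊ →
      ∀ q a : ℕ, 1 ≤ q → 30 ∣ q → q ≤ X ^ A → a ≤ X ^ A → (∀ h ∈ H, Nat.Coprime q (a + h)) →
      ∀ u Y : ℕ, (X : ℝ) ^ θ ≤ Y → ∀ l T : ℕ, (l ≤ l₀ ∨ T * V k q s ≤ x₀) →
        |(D H q a s l T u Y : ℝ) - Y * V k q s *
            ∑ j ∈ range l, Real.exp (-(T * V k q s)) * (T * V k q s) ^ j / j.factorial| ≤
          ε * (Y * V k q s) := by
  obtain ⟨r0, h0⟩ := Pool.Agent.R490.Tq.tgap k A hH.two θ hθ l₀ x₀ ε hε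
  refine ⟨r0, fun r hr => ?_⟩
  filter_upwards [h0 r hr, eventually_ge_atTop 12] with X hX hX12
  intro s hs q a hq1 hq30 hqX haX hco u Y hY l T hT
  have hpow : X ≤ X ^ A := Nat.le_self_pow (by omega) X
  have h1 := hX s hs H hH.card (fun h hh => (hH.le h hh).trans (hX12.trans hpow)) hH.adm q a hq1 hqX
    haX hco (fun h hh h' hh' hlt hd => by
      have h2 : 30 ∣ h - h' := hq30.trans hd
      have h3 := Nat.le_of_dvd (by omega) h2
      have h4 := hH.le h hh
      omega) u Y hY l T (by rw [hH.V_eq hq30]; exact hT)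
  rw [hH.V_eq hq30] at h1
  exact h1

/-- numbers up to `X ^ B` without prime factors `≤ X ^ (1 / r)` have at most `B r` prime factors -/
lemma few (X r s B N : ℕ) (hr : 0 < r) (hX : 2 ≤ X) (hs : s = ⌊(X : ℝ) ^ (1 / (r : ℝ))⌋₊) (hN : 0 < N)
    (hNX : N ≤ X ^ B) (h : ∀ p : ℕ, p.Prime → p ≤ s → ¬ p ∣ N) : N.primeFactorsList.length ≤ B * r := by
  have hXr : (2 : ℝ) ≤ X := by exact_mod_cast hX
  have hr0 : (0 : ℝ) < r := by exact_mod_cast hr
  have hz : (1 : ℝ) < (X : ℝ) ^ (1 / (r : ℝ)) := Real.one_lt_rpow (by linarith) (by positivity)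
  have hpow : ((X : ℝ) ^ (1 / (r : ℝ))) ^ r = X := by
    rw [← Real.rpow_natCast, ← Real.rpow_mul (by linarith), one_div, inv_mul_cancel₀ hr0.ne',
      Real.rpow_one]
  have hbig : ∀ p ∈ N.primeFactorsList, (X : ℝ) ^ (1 / (r : ℝ)) < p := by
    intro p hp
    by_contra hcon
    rw [not_lt] at hcon
    refine h p (Nat.prime_of_mem_primeFactorsList hp) ?_ (Nat.dvd_of_mem_primeFactorsList hp)
    rw [hs]
    exact Nat.le_floor hcon
  have hprod : ∀ l : List ℕ, (∀ p ∈ l, (X : ℝ) ^ (1 / (r : ℝ)) < p) →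
      ((X : ℝ) ^ (1 / (r : ℝ))) ^ l.length ≤ ((l.prod : ℕ) : ℝ) := by
    intro l
    induction l with
    | nil => intro _; simp
    | cons a t ih =>
      intro hl
      rw [List.length_cons, pow_succ, List.prod_cons, Nat.cast_mul, mul_comm]
      exact mul_le_mul (hl a (by simp)).le (ih (fun p hp => hl p (by simp [hp]))) (by positivity)
        (Nat.cast_nonneg _)
  have h1 := hprod _ hbig
  rw [Nat.prod_primeFactorsList hN.ne'] at h1
  have h2 : (N : ℝ) ≤ ((X : ℝ) ^ (1 / (r : ℝ))) ^ (B * r) := by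
    rw [mul_comm, pow_mul, hpow]
    exact_mod_cast hNX
  exact (pow_le_pow_iff_right₀ hz).1 (h1.trans h2)

lemma difGen (H : Finset ℕ) (hle : ∀ h ∈ H, h ≤ 12)
    (hd : ∀ h ∈ H, ∀ h' ∈ H, h ≠ h' → ∀ p ∈ ({7, 11} : Finset ℕ), h % p ≠ h' % p) :
    ∀ h ∈ H, ∀ h' ∈ H, ∀ p : ℕ, p.Prime → ¬ p ∣ 30 → h % p = h' % p → h = h' := by
  intro h hh h' hh' p hp h30 he
  by_contra hne
  have h1 := hle h hh
  have h2 := hle h' hh'
  rcases Nat.lt_or_ge p 13 with h13 | h13
  · have := hp.two_le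
    interval_cases p
    · exact h30 (by norm_num)
    · exact h30 (by norm_num)
    · exact absurd hp (by norm_num)
    · exact h30 (by norm_num)
    · exact absurd hp (by norm_num)
    · exact hd h hh h' hh' hne 7 (by decide) he
    · exact absurd hp (by norm_num)
    · exact absurd hp (by norm_num)
    · exact absurd hp (by norm_num)
    · exact hd h hh h' hh' hne 11 (by decide) he
    · exact absurd hp (by norm_num)
  · rw [Nat.mod_eq_of_lt (by omega), Nat.mod_eq_of_lt (by omega)] at he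
    exact hne he

lemma admGen (H : Finset ℕ) (c d : ℕ) (hc : ∀ h ∈ H, (c + h).Prime) (hc30 : 30 ≤ c)
    (hd : ∀ h ∈ H, 0 < d + h ∧ d + h < 30) (p : ℕ) (hp : p.Prime) :
    ∃ m : ℕ, ∀ h ∈ H, ¬ p ∣ m + h := by
  rcases Nat.lt_or_ge p 30 with h30 | h30
  · refine ⟨c, fun h hh hdv => ?_⟩
    have h1 := (Nat.prime_dvd_prime_iff_eq hp (hc h hh)).1 hdv
    omega
  · refine ⟨d, fun h hh hdv => ?_⟩
    obtain ⟨h1, h2⟩ := hd h hh
    have := Nat.le_of_dvd h1 hdv
    omega

lemma ok4a : OK {0, 2, 6, 8} 4 where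
  card := by decide
  two := by norm_num
  adm := admGen _ 101 5 (by
    intro h hh
    simp only [mem_insert, mem_singleton] at hh
    rcases hh with rfl | rfl | rfl | rfl <;> norm_num) (by norm_num) (by decide)
  le := by decide
  dif := difGen _ (by decide) (by decide)

lemma ok4b : OK {0, 4, 6, 10} 4 where
  card := by decide
  two := by norm_num
  adm := admGen _ 37 7 (by
    intro h hh
    simp only [mem_insert, mem_singleton] at hh
    rcases hh with rfl | rfl | rfl | rfl <;> norm_num) (by norm_num) (by decide)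
  le := by decide
  dif := difGen _ (by decide) (by decide)

lemma ok3a : OK {0, 2, 6} 3 where
  card := by decide
  two := by norm_num
  adm := admGen _ 101 5 (by
    intro h hh
    simp only [mem_insert, mem_singleton] at hh
    rcases hh with rfl | rfl | rfl <;> norm_num) (by norm_num) (by decide)
  le := by decide
  dif := difGen _ (by decide) (by decide)

lemma ok3b : OK {0, 4, 6} 3 where
  card := by decide
  two := by norm_num
  adm := admGen _ 37 7 (by
    intro h hh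
    simp only [mem_insert, mem_singleton] at hh
    rcases hh with rfl | rfl | rfl <;> norm_num) (by norm_num) (by decide)
  le := by decide
  dif := difGen _ (by decide) (by decide)

end Pool.Agent.V7H96.SP
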